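import Mathlib

set_option autoImplicit false

/-!
Barnes multiple zeta function: the Mellin transform representation and the continuation.
Part 1: sums over `Fin r → ℕ`.
-/

namespace Pool.Agent.H131R5.BZ

open Finset Filter Topology MeasureTheory Complex Set

/-- product of sums over `Fin r → ℕ` -/
lemma hasSum_prod_fin (r : ℕ) (g : Fin r → ℕ → ℝ) (S : Fin r → ℝ) (hg : ∀ j k, 0 ≤ g j k)
    (hS : ∀ j, HasSum (g j) (S j)) :
    HasSum (fun m : Fin r → ℕ => ∏ j, g j (m j)) (∏ j, S j) := by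
  induction r with
  | zero =>
    simp only [Finset.univ_eq_empty, Finset.prod_empty]
    exact hasSum_unique (fun _ : Fin 0 → ℕ => (1 : ℝ))
  | succ n ih =>
    have h1 := ih (fun j => g j.succ) (fun j => S j.succ) (fun j k => hg j.succ k)
      (fun j => hS j.succ)
    set G : (Fin n → ℕ) → ℝ := fun m => ∏ j : Fin n, g j.succ (m j) with hG
    have hs : Summable (fun x : ℕ × (Fin n → ℕ) => g 0 x.1 * G x.2) :=
      Summable.mul_of_nonneg (hS 0).summable h1.summable (fun k => hg 0 k)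
        (fun m => Finset.prod_nonneg (fun j _ => hg j.succ (m j)))
    have h2 : HasSum (fun x : ℕ × (Fin n → ℕ) => g 0 x.1 * G x.2)
        (S 0 * ∏ j : Fin n, S j.succ) :=
      HasSum.mul (f := g 0) (g := G) (hS 0) h1 hs
    rw [Fin.prod_univ_succ]
    have h3 := (Fin.consEquiv (fun _ : Fin (n + 1) => ℕ)).hasSum_iff
      (f := fun m : Fin (n + 1) → ℕ => ∏ j, g j (m j)) (a := S 0 * ∏ j : Fin n, S j.succ)
    rw [← h3]
    have h4 : ((fun m : Fin (n + 1) → ℕ => ∏ j, g j (m j)) ∘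
        (Fin.consEquiv (fun _ : Fin (n + 1) => ℕ))) = fun x => g 0 x.1 * G x.2 := by
      funext x
      simp only [Function.comp, Fin.consEquiv, Equiv.coe_fn_mk, hG]
      rw [Fin.prod_univ_succ]
      simp
    rw [h4]
    exact h2

/-- the values `a + m·w` -/
noncomputable def lam {r : ℕ} (a : ℝ) (w : Fin r → ℝ) (m : Fin r → ℕ) : ℝ :=
  a + ∑ j, (m j : ℝ) * w j

lemma lam_ge {r : ℕ} {a : ℝ} {w : Fin r → ℝ} (hw : ∀ j, 0 < w j) (m : Fin r → ℕ) :
    a ≤ lam a w m := by
  unfold lam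
  have : 0 ≤ ∑ j, (m j : ℝ) * w j := Finset.sum_nonneg (fun j _ => by have := hw j; positivity)
  linarith

lemma lam_pos {r : ℕ} {a : ℝ} (ha : 0 < a) {w : Fin r → ℝ} (hw : ∀ j, 0 < w j)
    (m : Fin r → ℕ) : 0 < lam a w m := lt_of_lt_of_le ha (lam_ge hw m)

/-- lower bound for `lam` by a constant times `1 + m j` -/
lemma lam_lower {r : ℕ} {a : ℝ} (ha : 0 < a) {w : Fin r → ℝ} (hw : ∀ j, 0 < w j) :
    ∃ c : ℝ, 0 < c ∧ ∀ (m : Fin r → ℕ) (j : Fin r), c * (1 + (m j : ℝ)) ≤ lam a w m := by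
  rcases Nat.eq_zero_or_pos r with h | h
  · subst h
    exact ⟨1, one_pos, fun m j => j.elim0⟩
  · have : Nonempty (Fin r) := ⟨⟨0, h⟩⟩
    obtain ⟨j0, hj0⟩ := Finite.exists_min w
    refine ⟨min a (w j0), lt_min ha (hw j0), fun m j => ?_⟩
    have h1 : (m j : ℝ) * w j ≤ ∑ i, (m i : ℝ) * w i :=
      Finset.single_le_sum (f := fun i => (m i : ℝ) * w i)
        (fun i _ => by have := hw i; positivity) (Finset.mem_univ j)
    have h2 : min a (w j0) * (m j : ℝ) ≤ (m j : ℝ) * w j := by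
      rw [mul_comm]
      exact mul_le_mul_of_nonneg_left ((min_le_right _ _).trans (hj0 j)) (by positivity)
    have h3 : min a (w j0) ≤ a := min_le_left _ _
    unfold lam
    nlinarith

lemma summable_lam {r : ℕ} {a : ℝ} (ha : 0 < a) {w : Fin r → ℝ} (hw : ∀ j, 0 < w j) {σ : ℝ}
    (hσ : (r : ℝ) < σ) : Summable (fun m : Fin r → ℕ => (lam a w m) ^ (-σ)) := by
  rcases Nat.eq_zero_or_pos r with h | h
  · subst h
    exact (hasSum_unique _).summable
  obtain ⟨c, hc, hlow⟩ := lam_lower ha hw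
  have hr : (0 : ℝ) < r := by exact_mod_cast h
  set p : ℝ := σ / r with hp
  have hp1 : 1 < p := by rw [hp, one_lt_div hr]; exact hσ
  have hs1 : Summable (fun k : ℕ => (1 + (k : ℝ)) ^ (-p)) := by
    have h1 : Summable (fun k : ℕ => ((k : ℝ)) ^ (-p)) := by
      rw [Real.summable_nat_rpow]; linarith
    have h2 := (summable_nat_add_iff 1).mpr h1
    refine h2.congr ?_
    intro k
    push_cast
    rw [add_comm]
  obtain ⟨S, hS⟩ := hs1
  have hprod := hasSum_prod_fin r (fun _ k => (1 + (k : ℝ)) ^ (-p)) (fun _ => S)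
    (fun _ k => by positivity) (fun _ => hS)
  refine Summable.of_nonneg_of_le (fun m => (Real.rpow_pos_of_pos (lam_pos ha hw m) _).le) ?_
    (hprod.summable.mul_left (c ^ (-σ)))
  intro m
  have hL := lam_pos ha hw m
  have hkey : ∏ j, (c * (1 + (m j : ℝ))) ≤ (lam a w m) ^ r := by
    calc ∏ j, (c * (1 + (m j : ℝ))) ≤ ∏ _j : Fin r, lam a w m :=
          Finset.prod_le_prod (fun j _ => by positivity) (fun j _ => hlow m j)
      _ = (lam a w m) ^ r := by simp
  have hkey2 : 0 < ∏ j, (c * (1 + (m j : ℝ))) := Finset.prod_pos (fun j _ => by positivity)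
  have h4 : ((lam a w m) ^ r) ^ (-p) ≤ (∏ j, (c * (1 + (m j : ℝ)))) ^ (-p) :=
    Real.rpow_le_rpow_of_nonpos hkey2 hkey (by linarith)
  have h5 : ((lam a w m) ^ r) ^ (-p) = (lam a w m) ^ (-σ) := by
    rw [← Real.rpow_natCast, ← Real.rpow_mul hL.le]
    congr 1
    rw [hp]; field_simp
  have h6 : (∏ j, (c * (1 + (m j : ℝ)))) ^ (-p) = c ^ (-σ) * ∏ j, (1 + (m j : ℝ)) ^ (-p) := by
    rw [← Real.finsetProd_rpow _ _ (fun j _ => by positivity)]
    have : ∀ j ∈ (Finset.univ : Finset (Fin r)), (c * (1 + (m j : ℝ))) ^ (-p) =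
        c ^ (-p) * (1 + (m j : ℝ)) ^ (-p) := by
      intro j _
      rw [Real.mul_rpow hc.le (by positivity)]
    rw [Finset.prod_congr rfl this, Finset.prod_mul_distrib]
    congr 1
    simp only [Finset.prod_const, Finset.card_univ, Fintype.card_fin]
    rw [← Real.rpow_natCast, ← Real.rpow_mul hc.le]
    congr 1
    rw [hp]; field_simp
  rw [h5, h6] at h4
  exact h4

/-- the exponential generating sum -/
lemma hasSum_exp {r : ℕ} {a : ℝ} {w : Fin r → ℝ} (hw : ∀ j, 0 < w j) {t : ℝ} (ht : 0 < t) :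
    HasSum (fun m : Fin r → ℕ => Real.exp (-(lam a w m) * t))
      (Real.exp (-a * t) * ∏ j, (1 - Real.exp (-(w j) * t))⁻¹) := by
  have h1 := hasSum_prod_fin r (fun j k => (Real.exp (-(w j) * t)) ^ k)
    (fun j => (1 - Real.exp (-(w j) * t))⁻¹) (fun j k => by positivity)
    (fun j => hasSum_geometric_of_lt_one (Real.exp_pos _).le (by
      rw [Real.exp_lt_one_iff]
      have := mul_pos (hw j) ht
      linarith))
  have h2 := h1.mul_left (Real.exp (-a * t))
  refine h2.congr_fun ?_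
  intro m
  have : ∏ j, Real.exp (-(w j) * t) ^ (m j) = Real.exp (∑ j, (m j : ℝ) * (-(w j) * t)) := by
    rw [Real.exp_sum]
    exact Finset.prod_congr rfl (fun j _ => by rw [← Real.exp_nat_mul])
  rw [this, ← Real.exp_add]
  congr 1
  unfold lam
  rw [neg_add, add_mul, ← Finset.sum_neg_distrib, Finset.sum_mul]
  congr 1
  exact Finset.sum_congr rfl (fun j _ => by ring)

end Pool.Agent.H131R5.BZ
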