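import Pool.Agent.H131R5.BZ1

set_option autoImplicit false

/-!
Barnes multiple zeta function, part 2: the function `t^r G(t)` and its Taylor expansion at `0`.
-/

namespace Pool.Agent.H131R5.BZ

open Finset Filter Topology MeasureTheory Complex Set

/-- `(1 - exp(-w z))/z` -/
noncomputable def phi (w : ℝ) : ℂ → ℂ := dslope (fun z : ℂ => 1 - cexp (-(w : ℂ) * z)) 0

lemma phi_diff (w : ℝ) : Differentiable ℂ (phi w) := by
  have h : DifferentiableOn ℂ (phi w) Set.univ := by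
    unfold phi
    rw [Complex.differentiableOn_dslope (by simp)]
    fun_prop
  exact differentiableOn_univ.mp h

lemma phi_zero (w : ℝ) : phi w 0 = w := by
  unfold phi
  rw [dslope_same]
  have h : HasDerivAt (fun z : ℂ => 1 - cexp (-(w : ℂ) * z)) (-(cexp (-(w : ℂ) * 0) * (-(w : ℂ) * 1))) 0 := by
    have h1 : HasDerivAt (fun z : ℂ => -(w : ℂ) * z) (-(w : ℂ) * 1) 0 :=
      (hasDerivAt_id (0 : ℂ)).const_mul _
    exact (h1.cexp).const_sub 1
  rw [h.deriv]
  simp

lemma phi_of_ne (w : ℝ) {z : ℂ} (hz : z ≠ 0) : phi w z = (1 - cexp (-(w : ℂ) * z)) / z := by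
  unfold phi
  rw [dslope_of_ne _ hz, slope_def_field]
  simp

lemma phi_real (w : ℝ) {t : ℝ} (ht : t ≠ 0) :
    phi w t = (((1 - Real.exp (-w * t)) / t : ℝ) : ℂ) := by
  rw [phi_of_ne w (by exact_mod_cast ht)]
  push_cast
  rfl

/-- the function `exp(-a z) ∏ z/(1 - exp(-w_j z))` -/
noncomputable def hh {r : ℕ} (a : ℝ) (w : Fin r → ℝ) (z : ℂ) : ℂ :=
  cexp (-(a : ℂ) * z) * ∏ j, (phi (w j) z)⁻¹

lemma hh_analyticAt {r : ℕ} (a : ℝ) {w : Fin r → ℝ} (hw : ∀ j, 0 < w j) :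
    AnalyticAt ℂ (hh a w) 0 := by
  unfold hh
  refine AnalyticAt.mul ?_ ?_
  · exact (by fun_prop : Differentiable ℂ (fun z : ℂ => cexp (-(a : ℂ) * z))).analyticAt 0
  · have h := Finset.analyticAt_fun_prod (f := fun (j : Fin r) (z : ℂ) => (phi (w j) z)⁻¹) (c := 0)
      Finset.univ (fun j _ => ((phi_diff (w j)).analyticAt 0).inv (by
        rw [phi_zero]; exact_mod_cast (hw j).ne'))
    exact h

/-- real form of `hh` -/
lemma hh_real {r : ℕ} (a : ℝ) (w : Fin r → ℝ) {t : ℝ} (ht : 0 < t) :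
    hh a w t = ((Real.exp (-a * t) * t ^ r * ∏ j, (1 - Real.exp (-(w j) * t))⁻¹ : ℝ) : ℂ) := by
  unfold hh
  have h1 : ∀ j, (phi (w j) t)⁻¹ = ((t * (1 - Real.exp (-(w j) * t))⁻¹ : ℝ) : ℂ) := by
    intro j
    rw [phi_real _ ht.ne', ← Complex.ofReal_inv]
    congr 1
    rw [inv_div]
    rfl
  simp only [h1]
  rw [← Complex.ofReal_prod, Finset.prod_mul_distrib]
  simp only [Finset.prod_const, Finset.card_univ, Fintype.card_fin]
  push_cast
  ring

lemma one_sub_exp_pos {w t : ℝ} (hw : 0 < w) (ht : 0 < t) : 0 < 1 - Real.exp (-w * t) := by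
  have h : Real.exp (-w * t) < 1 := by
    rw [Real.exp_lt_one_iff]; have := mul_pos hw ht; linarith
  linarith

lemma hh_continuousOn {r : ℕ} (a : ℝ) {w : Fin r → ℝ} (hw : ∀ j, 0 < w j) :
    ContinuousOn (fun t : ℝ => hh a w t) (Ioi 0) := by
  unfold hh
  refine ContinuousOn.mul (by fun_prop) ?_
  refine continuousOn_finsetProd _ (fun j _ => ?_)
  refine ContinuousOn.inv₀ ?_ ?_
  · exact ((phi_diff (w j)).continuous.comp continuous_ofReal).continuousOn
  · intro t ht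
    rw [phi_real _ (ne_of_gt ht)]
    have := one_sub_exp_pos (hw j) (show (0 : ℝ) < t from ht)
    have ht' : (0 : ℝ) < t := ht
    exact_mod_cast (div_pos this ht').ne'

lemma hh_top {r : ℕ} {a : ℝ} (ha : 0 < a) {w : Fin r → ℝ} (hw : ∀ j, 0 < w j) :
    (fun t : ℝ => hh a w t) =O[atTop] fun t => Real.exp (-(a / 2) * t) := by
  have h1 : (fun t : ℝ => t ^ r) =O[atTop] fun t => Real.exp (a / 2 * t) :=
    (isLittleO_pow_exp_pos_mul_atTop r (by positivity)).isBigO
  have h2 : (fun t : ℝ => Real.exp (-a * t) * t ^ r) =O[atTop]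
      fun t => Real.exp (-a * t) * Real.exp (a / 2 * t) :=
    (Asymptotics.isBigO_refl _ _).mul h1
  have h3 : (fun t : ℝ => Real.exp (-a * t) * Real.exp (a / 2 * t)) =
      fun t => Real.exp (-(a / 2) * t) := by
    funext t
    rw [← Real.exp_add]; congr 1; ring
  rw [h3] at h2
  refine Asymptotics.IsBigO.trans ?_ h2
  refine Asymptotics.IsBigO.of_bound (∏ j, (1 - Real.exp (-(w j) * 1))⁻¹) ?_
  filter_upwards [eventually_ge_atTop (1 : ℝ)] with t ht
  have ht0 : 0 < t := by linarith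
  rw [hh_real a w ht0, Complex.norm_real, norm_mul, mul_comm]
  refine mul_le_mul_of_nonneg_right ?_ (norm_nonneg _)
  rw [Real.norm_of_nonneg (Finset.prod_nonneg (fun j _ =>
    (inv_pos.mpr (one_sub_exp_pos (hw j) ht0)).le))]
  refine Finset.prod_le_prod (fun j _ => (inv_pos.mpr (one_sub_exp_pos (hw j) ht0)).le) ?_
  intro j _
  refine inv_anti₀ (one_sub_exp_pos (hw j) one_pos) ?_
  have : Real.exp (-(w j) * t) ≤ Real.exp (-(w j) * 1) := by
    apply Real.exp_le_exp.mpr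
    have := hw j
    nlinarith
  linarith

/-- Taylor polynomials at `0` -/
lemma exists_taylor {r : ℕ} (a : ℝ) {w : Fin r → ℝ} (hw : ∀ j, 0 < w j) :
    ∃ c : ℕ → ℂ, ∀ N : ℕ, (fun t : ℝ => hh a w t - ∑ k ∈ range N, c k * (t : ℂ) ^ k)
      =O[𝓝[>] 0] fun t : ℝ => t ^ (-(-(N : ℝ))) := by
  obtain ⟨p, hp⟩ := hh_analyticAt a hw
  refine ⟨fun k => p.coeff k, fun N => ?_⟩
  have h1 := hp.isBigO_sub_partialSum_pow N
  have h2 : Tendsto (fun t : ℝ => (t : ℂ)) (𝓝[>] 0) (𝓝 0) := by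
    have : Tendsto (fun t : ℝ => (t : ℂ)) (𝓝 0) (𝓝 ((0 : ℝ) : ℂ)) :=
      continuous_ofReal.tendsto 0
    rw [Complex.ofReal_zero] at this
    exact this.mono_left nhdsWithin_le_nhds
  have h3 := h1.comp_tendsto h2
  have e1 : ((fun y : ℂ => hh a w (0 + y) - p.partialSum N y) ∘ fun t : ℝ => (t : ℂ)) =
      fun t : ℝ => hh a w t - ∑ k ∈ range N, p.coeff k * (t : ℂ) ^ k := by
    funext t
    simp only [Function.comp, zero_add]
    congr 1
    rw [FormalMultilinearSeries.partialSum]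
    refine Finset.sum_congr rfl (fun k _ => ?_)
    rw [FormalMultilinearSeries.apply_eq_pow_smul_coeff, smul_eq_mul, mul_comm]
  rw [e1] at h3
  refine h3.trans ?_
  refine Asymptotics.IsBigO.of_bound 1 ?_
  filter_upwards [self_mem_nhdsWithin] with t ht
  have ht0 : (0 : ℝ) < t := ht
  simp only [Function.comp, one_mul, Complex.norm_real, neg_neg]
  rw [Real.rpow_natCast, norm_pow, norm_pow, norm_norm]

end Pool.Agent.H131R5.BZ
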