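import Pool.Agent.H131R5.BZ2

set_option autoImplicit false

/-!
Barnes multiple zeta function, part 3: the continuation to `ℂ ∖ {1, ..., r}`.
-/

namespace Pool.Agent.H131R5.BZ

open Finset Filter Topology MeasureTheory Complex Set

noncomputable section

/-- `h` minus the Taylor polynomial on `(0,1]` -/
def hN {r : ℕ} (a : ℝ) (w : Fin r → ℝ) (c : ℕ → ℂ) (N : ℕ) (t : ℝ) : ℂ :=
  hh a w t - ∑ k ∈ range N, c k * (Ioc (0 : ℝ) 1).indicator (fun t : ℝ => (t : ℂ) ^ (k : ℂ)) t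

lemma hN_zero {r : ℕ} (a : ℝ) (w : Fin r → ℝ) (c : ℕ → ℂ) :
    hN a w c 0 = fun t : ℝ => hh a w t := by
  funext t; simp [hN]

lemma hN_succ {r : ℕ} (a : ℝ) (w : Fin r → ℝ) (c : ℕ → ℂ) (N : ℕ) :
    hN a w c N = fun t : ℝ => hN a w c (N + 1) t +
      c N • (Ioc (0 : ℝ) 1).indicator (fun t : ℝ => (t : ℂ) ^ (N : ℂ)) t := by
  funext t
  unfold hN
  rw [Finset.sum_range_succ, smul_eq_mul]
  ring

lemma hN_loc {r : ℕ} (a : ℝ) {w : Fin r → ℝ} (hw : ∀ j, 0 < w j) (c : ℕ → ℂ) (N : ℕ) :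
    LocallyIntegrableOn (hN a w c N) (Ioi 0) := by
  induction N with
  | zero =>
    rw [hN_zero]
    exact (hh_continuousOn a hw).locallyIntegrableOn measurableSet_Ioi
  | succ N ih =>
    have h1 : hN a w c (N + 1) = fun t : ℝ => hN a w c N t -
        c N • (Ioc (0 : ℝ) 1).indicator (fun t : ℝ => (t : ℂ) ^ (N : ℂ)) t := by
      rw [hN_succ a w c N]
      funext t; ring
    rw [h1]
    refine LocallyIntegrableOn.sub ih ?_
    have h2 : LocallyIntegrable ((Ioc (0 : ℝ) 1).indicator (fun t : ℝ => (t : ℂ) ^ N)) := by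
      have h3 : Continuous (fun t : ℝ => (t : ℂ) ^ N) := by fun_prop
      exact h3.locallyIntegrable.indicator measurableSet_Ioc
    have h4 : (Ioc (0 : ℝ) 1).indicator (fun t : ℝ => (t : ℂ) ^ (N : ℂ)) =
        (Ioc (0 : ℝ) 1).indicator (fun t : ℝ => (t : ℂ) ^ N) := by
      congr 1
      funext t
      rw [Complex.cpow_natCast]
    rw [h4]
    exact (h2.smul (c N)).locallyIntegrableOn _

lemma hN_top {r : ℕ} {a : ℝ} (ha : 0 < a) {w : Fin r → ℝ} (hw : ∀ j, 0 < w j) (c : ℕ → ℂ)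
    (N : ℕ) : (hN a w c N) =O[atTop] fun t => Real.exp (-(a / 2) * t) := by
  refine Asymptotics.IsBigO.congr' (hh_top ha hw) ?_ (EventuallyEq.refl _ _)
  filter_upwards [eventually_gt_atTop (1 : ℝ)] with t ht
  unfold hN
  have h1 : t ∉ Ioc (0 : ℝ) 1 := fun h => absurd h.2 (not_le.mpr ht)
  have : ∀ k, c k * (Ioc (0 : ℝ) 1).indicator (fun t : ℝ => (t : ℂ) ^ (k : ℂ)) t = 0 := by
    intro k
    rw [Set.indicator_of_notMem h1, mul_zero]
  rw [Finset.sum_eq_zero (fun k _ => this k), sub_zero]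

lemma hN_bot {r : ℕ} {a : ℝ} {w : Fin r → ℝ} {c : ℕ → ℂ}
    (hc : ∀ N : ℕ, (fun t : ℝ => hh a w t - ∑ k ∈ range N, c k * (t : ℂ) ^ k)
      =O[𝓝[>] 0] fun t : ℝ => t ^ (-(-(N : ℝ)))) (N : ℕ) :
    (hN a w c N) =O[𝓝[>] 0] fun t : ℝ => t ^ (-(-(N : ℝ))) := by
  refine Asymptotics.IsBigO.congr' (hc N) ?_ (EventuallyEq.refl _ _)
  have h1 : ∀ᶠ t : ℝ in 𝓝[>] 0, t ∈ Ioc (0 : ℝ) 1 := Ioc_mem_nhdsGT one_pos
  filter_upwards [h1] with t ht
  unfold hN
  congr 1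
  refine Finset.sum_congr rfl (fun k _ => ?_)
  rw [Set.indicator_of_mem ht, Complex.cpow_natCast]

variable {r : ℕ} {a : ℝ} {w : Fin r → ℝ} {c : ℕ → ℂ}

lemma hN_conv (ha : 0 < a) (hw : ∀ j, 0 < w j)
    (hc : ∀ N : ℕ, (fun t : ℝ => hh a w t - ∑ k ∈ range N, c k * (t : ℂ) ^ k)
      =O[𝓝[>] 0] fun t : ℝ => t ^ (-(-(N : ℝ)))) (N : ℕ) {s : ℂ} (hs : -(N : ℝ) < s.re) :
    MellinConvergent (hN a w c N) s :=
  mellinConvergent_of_isBigO_rpow_exp (half_pos ha) (hN_loc a hw c N) (hN_top ha hw c N)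
    (hN_bot hc N) hs

lemma hN_diff (ha : 0 < a) (hw : ∀ j, 0 < w j)
    (hc : ∀ N : ℕ, (fun t : ℝ => hh a w t - ∑ k ∈ range N, c k * (t : ℂ) ^ k)
      =O[𝓝[>] 0] fun t : ℝ => t ^ (-(-(N : ℝ)))) (N : ℕ) {s : ℂ} (hs : -(N : ℝ) < s.re) :
    DifferentiableAt ℂ (mellin (hN a w c N)) s :=
  mellin_differentiableAt_of_isBigO_rpow_exp (half_pos ha) (hN_loc a hw c N) (hN_top ha hw c N)
    (hN_bot hc N) hs

lemma mellin_step (ha : 0 < a) (hw : ∀ j, 0 < w j)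
    (hc : ∀ N : ℕ, (fun t : ℝ => hh a w t - ∑ k ∈ range N, c k * (t : ℂ) ^ k)
      =O[𝓝[>] 0] fun t : ℝ => t ^ (-(-(N : ℝ)))) (N : ℕ) {s : ℂ} (hs : -(N : ℝ) < s.re) :
    mellin (hN a w c N) s = mellin (hN a w c (N + 1)) s + c N * (1 / (s + N)) := by
  have h1 : MellinConvergent (hN a w c (N + 1)) s := by
    apply hN_conv ha hw hc
    push_cast; linarith
  have h2 := hasMellin_cpow_Ioc (N : ℂ) (s := s) (by simp; linarith)
  have h3 : MellinConvergent (fun t : ℝ => c N • (Ioc (0 : ℝ) 1).indicator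
      (fun t : ℝ => (t : ℂ) ^ (N : ℂ)) t) s := h2.1.const_smul (c N)
  have h4 := hasMellin_add h1 h3
  rw [hN_succ a w c N, h4.2]
  congr 1
  rw [mellin_const_smul, h2.2, smul_eq_mul]

/-- the entire function `1/(Γ(s)(s+n))` -/
def En (n : ℕ) (s : ℂ) : ℂ := (∏ i ∈ range n, (s + i)) * (Gamma (s + n + 1))⁻¹

lemma inv_Gamma_eq (n : ℕ) (s : ℂ) :
    (Gamma s)⁻¹ = (∏ i ∈ range (n + 1), (s + i)) * (Gamma (s + n + 1))⁻¹ := by
  induction n with
  | zero =>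
    simp [Complex.one_div_Gamma_eq_self_mul_one_div_Gamma_add_one s]
  | succ n ih =>
    rw [ih, Finset.prod_range_succ _ (n + 1),
      Complex.one_div_Gamma_eq_self_mul_one_div_Gamma_add_one (s + n + 1)]
    push_cast
    ring_nf

lemma En_mul (n : ℕ) (s : ℂ) : (s + n) * En n s = (Gamma s)⁻¹ := by
  rw [inv_Gamma_eq n s, Finset.prod_range_succ]
  unfold En
  ring

lemma En_diff (n : ℕ) : Differentiable ℂ (En n) := by
  unfold En
  refine Differentiable.mul (by fun_prop) ?_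
  exact (Complex.differentiable_one_div_Gamma).comp (by fun_prop : Differentiable ℂ fun s : ℂ => s + n + 1)

/-- `1/(Γ(s)(s-r+k))`, extended at the removable points -/
def Qk (r k : ℕ) (s : ℂ) : ℂ :=
  if k < r then (Gamma s)⁻¹ * (1 / (s - r + k)) else En (k - r) s

lemma Qk_eq (r k : ℕ) {s : ℂ} (hs : s - r + k ≠ 0) :
    Qk r k s = (Gamma s)⁻¹ * (1 / (s - r + k)) := by
  unfold Qk
  split_ifs with h
  · rfl
  · have h1 : ((k - r : ℕ) : ℂ) = (k : ℂ) - r := by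
      rw [Nat.cast_sub (not_lt.mp h)]
    have h2 := En_mul (k - r) s
    rw [h1] at h2
    have h3 : s + ((k : ℂ) - r) = s - r + k := by ring
    rw [h3] at h2
    rw [← h2]
    field_simp

lemma Qk_diff (r k : ℕ) {s : ℂ} (hs : ∀ j : ℕ, 1 ≤ j → j ≤ r → s ≠ (j : ℂ)) :
    DifferentiableAt ℂ (Qk r k) s := by
  unfold Qk
  split_ifs with h
  · refine DifferentiableAt.mul Complex.differentiable_one_div_Gamma.differentiableAt ?_
    refine DifferentiableAt.div (by fun_prop) (by fun_prop) ?_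
    intro h0
    have h1 := hs (r - k) (by omega) (by omega)
    rw [Nat.cast_sub h.le] at h1
    apply h1
    linear_combination h0
  · exact (En_diff (k - r)).differentiableAt

/-- the continuation at level `N` -/
def FN {r : ℕ} (a : ℝ) (w : Fin r → ℝ) (c : ℕ → ℂ) (N : ℕ) (s : ℂ) : ℂ :=
  (Gamma s)⁻¹ * mellin (hN a w c N) (s - r) + ∑ k ∈ range N, c k * Qk r k s

lemma FN_succ (ha : 0 < a) (hw : ∀ j, 0 < w j)
    (hc : ∀ N : ℕ, (fun t : ℝ => hh a w t - ∑ k ∈ range N, c k * (t : ℂ) ^ k)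
      =O[𝓝[>] 0] fun t : ℝ => t ^ (-(-(N : ℝ)))) (N : ℕ) {s : ℂ} (hs : (r : ℝ) - N < s.re) :
    FN a w c (N + 1) s = FN a w c N s := by
  unfold FN
  have h1 : -(N : ℝ) < (s - r).re := by
    simp; linarith
  rw [mellin_step ha hw hc N h1, Finset.sum_range_succ]
  have h2 : s - r + N ≠ 0 := by
    intro h0
    have := congrArg Complex.re h0
    simp at this
    linarith
  rw [Qk_eq r N h2]
  ring

lemma FN_eq (ha : 0 < a) (hw : ∀ j, 0 < w j)
    (hc : ∀ N : ℕ, (fun t : ℝ => hh a w t - ∑ k ∈ range N, c k * (t : ℂ) ^ k)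
      =O[𝓝[>] 0] fun t : ℝ => t ^ (-(-(N : ℝ)))) {N M : ℕ} (hNM : N ≤ M) {s : ℂ}
      (hs : (r : ℝ) - N < s.re) :
    FN a w c M s = FN a w c N s := by
  induction M, hNM using Nat.le_induction with
  | base => rfl
  | succ M hM ih =>
    rw [FN_succ ha hw hc M, ih]
    have : (N : ℝ) ≤ M := by exact_mod_cast hM
    linarith

/-- the continuation -/
def FF {r : ℕ} (a : ℝ) (w : Fin r → ℝ) (c : ℕ → ℂ) (s : ℂ) : ℂ :=
  FN a w c (⌈(r : ℝ) + 1 - s.re⌉₊) s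

lemma FF_eq (ha : 0 < a) (hw : ∀ j, 0 < w j)
    (hc : ∀ N : ℕ, (fun t : ℝ => hh a w t - ∑ k ∈ range N, c k * (t : ℂ) ^ k)
      =O[𝓝[>] 0] fun t : ℝ => t ^ (-(-(N : ℝ)))) (N : ℕ) {s : ℂ} (hs : (r : ℝ) - N < s.re) :
    FF a w c s = FN a w c N s := by
  unfold FF
  set M := ⌈(r : ℝ) + 1 - s.re⌉₊ with hM
  have h1 : (r : ℝ) - M < s.re := by
    have := Nat.le_ceil ((r : ℝ) + 1 - s.re)
    linarith
  rcases le_total N M with h | h
  · exact FN_eq ha hw hc h hs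
  · exact (FN_eq ha hw hc h h1).symm

lemma FN_diff (ha : 0 < a) (hw : ∀ j, 0 < w j)
    (hc : ∀ N : ℕ, (fun t : ℝ => hh a w t - ∑ k ∈ range N, c k * (t : ℂ) ^ k)
      =O[𝓝[>] 0] fun t : ℝ => t ^ (-(-(N : ℝ)))) (N : ℕ) {s : ℂ} (hs : (r : ℝ) - N < s.re)
    (hs2 : ∀ j : ℕ, 1 ≤ j → j ≤ r → s ≠ (j : ℂ)) :
    DifferentiableAt ℂ (FN a w c N) s := by
  unfold FN
  refine DifferentiableAt.add ?_ ?_
  · refine DifferentiableAt.mul Complex.differentiable_one_div_Gamma.differentiableAt ?_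
    have h1 : -(N : ℝ) < (s - r).re := by
      simp; linarith
    have h2 : DifferentiableAt ℂ (mellin (hN a w c N) ∘ fun s : ℂ => s - r) s :=
      DifferentiableAt.comp (g := mellin (hN a w c N)) (f := fun s : ℂ => s - r) s
        (hN_diff ha hw hc N h1) (by fun_prop)
    exact h2
  · refine DifferentiableAt.fun_sum (fun k _ => ?_)
    exact (differentiableAt_const _).mul (Qk_diff r k hs2)

lemma FF_diff (ha : 0 < a) (hw : ∀ j, 0 < w j)
    (hc : ∀ N : ℕ, (fun t : ℝ => hh a w t - ∑ k ∈ range N, c k * (t : ℂ) ^ k)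
      =O[𝓝[>] 0] fun t : ℝ => t ^ (-(-(N : ℝ)))) {s : ℂ}
    (hs2 : ∀ j : ℕ, 1 ≤ j → j ≤ r → s ≠ (j : ℂ)) :
    DifferentiableAt ℂ (FF a w c) s := by
  set N := ⌈(r : ℝ) + 1 - s.re⌉₊ with hN
  have h1 : (r : ℝ) - N < s.re := by
    have := Nat.le_ceil ((r : ℝ) + 1 - s.re)
    linarith
  refine (FN_diff ha hw hc N h1 hs2).congr_of_eventuallyEq ?_
  have h2 : ∀ᶠ z in 𝓝 s, (r : ℝ) - N < z.re :=
    (continuous_re.tendsto s).eventually (lt_mem_nhds h1)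
  filter_upwards [h2] with z hz
  exact FF_eq ha hw hc N hz

lemma FF_series (ha : 0 < a) (hw : ∀ j, 0 < w j)
    (hc : ∀ N : ℕ, (fun t : ℝ => hh a w t - ∑ k ∈ range N, c k * (t : ℂ) ^ k)
      =O[𝓝[>] 0] fun t : ℝ => t ^ (-(-(N : ℝ)))) {s : ℂ} (hs : (r : ℝ) < s.re) :
    HasSum (fun m : Fin r → ℕ => ((lam a w m : ℝ) : ℂ) ^ (-s)) (FF a w c s) := by
  rw [FF_eq ha hw hc 0 (by simpa using hs)]
  unfold FN
  rw [hN_zero]
  simp only [Finset.range_zero, Finset.sum_empty, add_zero]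
  have hr0 : (0 : ℝ) ≤ r := Nat.cast_nonneg r
  have hs0 : 0 < s.re := by linarith
  -- the Mellin transform of `G`
  set G : ℝ → ℂ := fun t => ((Real.exp (-a * t) * ∏ j, (1 - Real.exp (-(w j) * t))⁻¹ : ℝ) : ℂ) with hG
  have h1 : HasSum (fun m : Fin r → ℕ => Gamma s * (1 : ℂ) / ((lam a w m : ℝ) : ℂ) ^ s)
      (mellin G s) := by
    refine hasSum_mellin (a := fun _ => (1 : ℂ)) (p := fun m => lam a w m) (F := G)
      (fun m => Or.inr (lam_pos ha hw m)) hs0 ?_ ?_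
    · intro t ht
      have := hasSum_exp (a := a) hw (show (0 : ℝ) < t from ht)
      have h2 := Complex.hasSum_ofReal.mpr this
      simpa [hG] using h2
    · have := summable_lam ha hw hs
      refine this.congr (fun m => ?_)
      rw [Real.rpow_neg (lam_pos ha hw m).le]
      simp
  have h2 : mellin (fun t : ℝ => hh a w t) (s - r) = mellin G s := by
    have h3 : mellin (fun t : ℝ => (t : ℂ) ^ (-(r : ℂ)) • hh a w t) s =
        mellin (fun t : ℝ => hh a w t) (s + (-(r : ℂ))) := mellin_cpow_smul _ _ _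
    rw [sub_eq_add_neg, ← h3]
    unfold mellin
    refine setIntegral_congr_fun measurableSet_Ioi ?_
    intro t ht
    have ht0 : (0 : ℝ) < t := ht
    simp only []
    congr 1
    rw [hh_real a w ht0, smul_eq_mul, Complex.cpow_neg, Complex.cpow_natCast, hG]
    push_cast
    have : (t : ℂ) ^ r ≠ 0 := pow_ne_zero _ (by exact_mod_cast ht0.ne')
    field_simp
  rw [h2]
  have hG0 : Gamma s ≠ 0 := Complex.Gamma_ne_zero_of_re_pos hs0
  have h3 := h1.mul_left ((Gamma s)⁻¹)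
  refine h3.congr_fun ?_
  intro m
  rw [Complex.cpow_neg]
  field_simp

/-- existence of the continuation -/
theorem exists_cont (ha : 0 < a) (hw : ∀ j, 0 < w j) :
    ∃ F : ℂ → ℂ, DifferentiableOn ℂ F {s : ℂ | ∀ k : ℕ, 1 ≤ k → k ≤ r → s ≠ (k : ℂ)} ∧
      ∀ s : ℂ, (r : ℝ) < s.re →
        HasSum (fun m : Fin r → ℕ => ((lam a w m : ℝ) : ℂ) ^ (-s)) (F s) := by
  obtain ⟨c, hc⟩ := exists_taylor a hw
  exact ⟨FF a w c, fun s hs => (FF_diff ha hw hc hs).differentiableWithinAt,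
    fun s hs => FF_series ha hw hc hs⟩

end

end Pool.Agent.H131R5.BZ
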