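import Mathlib

set_option autoImplicit false

/-!
Barnes multiple zeta function, part 4: a growth bound `t^ε` on a half strip bounds the number of
frequencies in a short window (Gaussian smoothing and a contour shift).
-/

namespace Pool.Agent.H131R5.BZ

open Finset Filter Topology MeasureTheory Complex Set

noncomputable section

/-- the kernel `exp((σ+it) L + κ (σ+it)^2)` -/
def Ek (σ κ L t : ℝ) : ℂ :=
  cexp (((σ : ℂ) + (t : ℂ) * I) * L + κ * ((σ : ℂ) + (t : ℂ) * I) ^ 2)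

lemma Ek_norm (σ κ L t : ℝ) :
    ‖Ek σ κ L t‖ = Real.exp (σ * L + κ * σ ^ 2) * Real.exp (-κ * t ^ 2) := by
  unfold Ek
  rw [Complex.norm_exp, ← Real.exp_add]
  congr 1
  simp [pow_two]
  ring

lemma Ek_cont (σ κ L : ℝ) : Continuous (Ek σ κ L) := by
  unfold Ek
  fun_prop

lemma Ek_integrable (σ : ℝ) {κ : ℝ} (hκ : 0 < κ) (L : ℝ) : Integrable (Ek σ κ L) := by
  refine Integrable.mono' ((integrable_exp_neg_mul_sq hκ).const_mul
    (Real.exp (σ * L + κ * σ ^ 2))) (Ek_cont σ κ L).aestronglyMeasurable ?_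
  exact Eventually.of_forall (fun t => (Ek_norm σ κ L t).le)

lemma Ek_integral (σ : ℝ) {κ : ℝ} (hκ : 0 < κ) (L : ℝ) :
    ∫ t : ℝ, Ek σ κ L t = ((Real.sqrt (Real.pi / κ) * Real.exp (-L ^ 2 / (4 * κ)) : ℝ) : ℂ) := by
  have h1 := integral_cexp_quadratic (b := -(κ : ℂ)) (by simpa using hκ)
    ((L + 2 * κ * σ : ℂ) * I) (σ * L + κ * σ ^ 2 : ℂ)
  have e1 : ∀ t : ℝ, Ek σ κ L t = cexp (-(κ : ℂ) * (t : ℂ) ^ 2 + ((L + 2 * κ * σ : ℂ) * I) * t +
      (σ * L + κ * σ ^ 2 : ℂ)) := by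
    intro t
    unfold Ek
    congr 1
    ring_nf
    rw [I_sq]
    ring
  simp only [e1]
  rw [h1]
  have hκ0 : (κ : ℂ) ≠ 0 := by exact_mod_cast hκ.ne'
  have e2 : (σ * L + κ * σ ^ 2 : ℂ) - ((L + 2 * κ * σ : ℂ) * I) ^ 2 / (4 * -(κ : ℂ)) =
      ((-L ^ 2 / (4 * κ) : ℝ) : ℂ) := by
    rw [mul_pow, I_sq]
    push_cast
    field_simp
    ring
  rw [e2, neg_neg]
  push_cast
  congr 1
  rw [Real.sqrt_eq_rpow, Complex.ofReal_cpow (by positivity)]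
  push_cast
  rfl

lemma Ek_norm_integral (σ : ℝ) {κ : ℝ} (_hκ : 0 < κ) (L : ℝ) :
    ∫ t : ℝ, ‖Ek σ κ L t‖ = Real.exp (σ * L + κ * σ ^ 2) * Real.sqrt (Real.pi / κ) := by
  simp only [Ek_norm]
  rw [integral_const_mul, integral_gaussian]

variable {ι : Type} [Countable ι]

/-- the sum over frequencies -/
lemma sum_integral (lam : ι → ℝ) (hlam : ∀ m, 0 < lam m) {σ : ℝ}
    (hsum : Summable (fun m => (lam m) ^ (-σ))) {X : ℝ} (hX : 0 < X) {κ : ℝ} (hκ : 0 < κ) :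
    HasSum (fun m => ((Real.sqrt (Real.pi / κ) *
      Real.exp (-(Real.log X - Real.log (lam m)) ^ 2 / (4 * κ)) : ℝ) : ℂ))
      (∫ t : ℝ, ∑' m, Ek σ κ (Real.log X - Real.log (lam m)) t) := by
  have h1 := hasSum_integral_of_summable_integral_norm (μ := volume)
    (F := fun (m : ι) (t : ℝ) => Ek σ κ (Real.log X - Real.log (lam m)) t)
    (fun m => Ek_integrable σ hκ _) (by
      simp only [Ek_norm_integral σ hκ]
      refine Summable.mul_right _ ?_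
      have h2 := hsum.mul_left (X ^ σ * Real.exp (κ * σ ^ 2))
      refine h2.congr (fun m => ?_)
      rw [Real.exp_add, Real.rpow_def_of_pos hX, Real.rpow_def_of_pos (hlam m), mul_sub,
        sub_eq_add_neg, Real.exp_add]
      ring_nf)
  refine h1.congr_fun ?_
  intro m
  rw [Ek_integral σ hκ]

/-- `F(s) X^s exp(κ s^2)` -/
def Hf (F : ℂ → ℂ) (X κ : ℝ) (s : ℂ) : ℂ := F s * cexp (s * (Real.log X : ℂ) + κ * s ^ 2)

lemma Hf_norm (F : ℂ → ℂ) {X : ℝ} (hX : 0 < X) (κ x y : ℝ) :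
    ‖Hf F X κ ((x : ℂ) + (y : ℂ) * I)‖ =
      ‖F ((x : ℂ) + (y : ℂ) * I)‖ * (X ^ x * Real.exp (κ * x ^ 2) * Real.exp (-κ * y ^ 2)) := by
  unfold Hf
  rw [norm_mul]
  congr 1
  have := Ek_norm x κ (Real.log X) y
  unfold Ek at this
  rw [this, Real.exp_add, Real.rpow_def_of_pos hX, mul_comm x]

lemma Hf_series (F : ℂ → ℂ) (lam : ι → ℝ) (hlam : ∀ m, 0 < lam m) {σ : ℝ}
    (hF : ∀ t : ℝ, HasSum (fun m => ((lam m : ℝ) : ℂ) ^ (-((σ : ℂ) + (t : ℂ) * I)))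
      (F ((σ : ℂ) + (t : ℂ) * I))) (X κ t : ℝ) :
    ∑' m, Ek σ κ (Real.log X - Real.log (lam m)) t = Hf F X κ ((σ : ℂ) + (t : ℂ) * I) := by
  unfold Hf
  have h := (hF t).mul_right (cexp (((σ : ℂ) + (t : ℂ) * I) * (Real.log X : ℂ) +
    κ * ((σ : ℂ) + (t : ℂ) * I) ^ 2))
  rw [← h.tsum_eq]
  refine tsum_congr (fun m => ?_)
  unfold Ek
  have h0 : ((lam m : ℝ) : ℂ) ≠ 0 := by exact_mod_cast (hlam m).ne'
  rw [Complex.cpow_def_of_ne_zero h0, ← Complex.exp_add, ← Complex.ofReal_log (hlam m).le]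
  congr 1
  push_cast
  ring

lemma Hf_conj (F : ℂ → ℂ) (lam : ι → ℝ) (hlam : ∀ m, 0 < lam m) {σ : ℝ}
    (hF : ∀ t : ℝ, HasSum (fun m => ((lam m : ℝ) : ℂ) ^ (-((σ : ℂ) + (t : ℂ) * I)))
      (F ((σ : ℂ) + (t : ℂ) * I))) (X κ t : ℝ) :
    Hf F X κ ((σ : ℂ) + ((-t : ℝ) : ℂ) * I) =
      (starRingEnd ℂ) (Hf F X κ ((σ : ℂ) + (t : ℂ) * I)) := by
  rw [← Hf_series F lam hlam hF X κ t, ← Hf_series F lam hlam hF X κ (-t), Complex.conj_tsum]
  refine tsum_congr (fun m => ?_)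
  unfold Ek
  rw [← Complex.exp_conj]
  congr 1
  simp only [map_add, map_mul, map_pow, Complex.conj_ofReal, Complex.conj_I]
  push_cast
  ring

end

end Pool.Agent.H131R5.BZ
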