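import Pool.Agent.H131R5.BZ4

set_option autoImplicit false

/-!
Barnes multiple zeta function, part 5: the contour shift and the counting inequality.
-/

namespace Pool.Agent.H131R5.BZ

open Finset Filter Topology MeasureTheory Complex Set

noncomputable section

lemma Hf_bound {F : ℂ → ℂ} {σ0 σ1 C ε : ℝ} (h0 : 0 ≤ σ0) (hC : 0 ≤ C)
    (hbd : ∀ σ t : ℝ, σ0 ≤ σ → σ ≤ σ1 → 1 ≤ t → ‖F ((σ : ℂ) + (t : ℂ) * I)‖ ≤ C * t ^ ε)
    {X κ : ℝ} (hX : 1 ≤ X) (_hκ : 0 < κ) (hκ1 : κ ≤ 1) {x y : ℝ} (hx0 : σ0 ≤ x) (hx1 : x ≤ σ1)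
    (hy : 1 ≤ y) :
    ‖Hf F X κ ((x : ℂ) + (y : ℂ) * I)‖ ≤
      (C * Real.exp (σ1 ^ 2) * X ^ x) * (y ^ ε * Real.exp (-κ * y ^ 2)) := by
  rw [Hf_norm F (by linarith) κ x y]
  have h1 := hbd x y hx0 hx1 hy
  have h2 : Real.exp (κ * x ^ 2) ≤ Real.exp (σ1 ^ 2) := by
    apply Real.exp_le_exp.mpr
    have : x ^ 2 ≤ σ1 ^ 2 := by
      apply pow_le_pow_left₀ (by linarith) hx1
    nlinarith [sq_nonneg x]
  have hXx : 0 < X ^ x := Real.rpow_pos_of_pos (by linarith) _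
  have hyε : 0 < y ^ ε := Real.rpow_pos_of_pos (by linarith) _
  calc ‖F ((x : ℂ) + (y : ℂ) * I)‖ * (X ^ x * Real.exp (κ * x ^ 2) * Real.exp (-κ * y ^ 2))
      ≤ (C * y ^ ε) * (X ^ x * Real.exp (σ1 ^ 2) * Real.exp (-κ * y ^ 2)) := by
        gcongr
    _ = _ := by ring

lemma Hf_diffAt {F : ℂ → ℂ} {X κ : ℝ} {s : ℂ} (h : DifferentiableAt ℂ F s) :
    DifferentiableAt ℂ (Hf F X κ) s := by
  unfold Hf
  refine h.mul ?_
  fun_prop

/-- the Gaussian integral -/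
def Jk (ε κ : ℝ) : ℝ := ∫ y in Ioi (0 : ℝ), y ^ ε * Real.exp (-κ * y ^ 2)

lemma Jk_eq {ε κ : ℝ} (hε : 0 < ε) (hκ : 0 < κ) :
    Jk ε κ = κ ^ (-(ε + 1) / 2) * (1 / 2) * Real.Gamma ((ε + 1) / 2) := by
  unfold Jk
  have := _root_.integral_rpow_mul_exp_neg_mul_rpow (p := 2) (q := ε) (b := κ) (by norm_num)
    (by linarith) hκ
  simpa only [Real.rpow_two] using this

lemma Jk_part {ε κ T : ℝ} (hε : 0 < ε) (hκ : 0 < κ) (hT : 1 ≤ T) :
    ∫ y in (1 : ℝ)..T, y ^ ε * Real.exp (-κ * y ^ 2) ≤ Jk ε κ := by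
  unfold Jk
  rw [intervalIntegral.integral_of_le hT]
  refine setIntegral_mono_set (integrableOn_rpow_mul_exp_neg_mul_sq hκ (by linarith)) ?_ ?_
  · filter_upwards [self_mem_ae_restrict measurableSet_Ioi] with y hy
    have : (0 : ℝ) < y := hy
    simp only [Pi.zero_apply]
    positivity
  · exact (Set.Ioc_subset_Ioi_self.trans (Set.Ioi_subset_Ioi zero_le_one)).eventuallyLE

lemma tail_small {ε κ : ℝ} (hκ : 0 < κ) :
    ∀ᶠ T : ℝ in atTop, T ^ ε * Real.exp (-κ * T ^ 2) ≤ 1 := by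
  have h1 := tendsto_rpow_mul_exp_neg_mul_atTop_nhds_zero ε κ hκ
  have h2 := h1.eventually (gt_mem_nhds (zero_lt_one))
  filter_upwards [h2, eventually_ge_atTop (1 : ℝ)] with T hT hT1
  refine le_trans ?_ hT.le
  refine mul_le_mul_of_nonneg_left ?_ (Real.rpow_nonneg (by linarith) _)
  apply Real.exp_le_exp.mpr
  nlinarith [mul_le_mul_of_nonneg_left hT1 hκ.le]

/-- the shift of the upper half of the line -/
lemma upper_bound {F : ℂ → ℂ} {σ0 σ1 C ε : ℝ} (h0 : 0 ≤ σ0) (h01 : σ0 ≤ σ1) (hC : 0 ≤ C)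
    (hε : 0 < ε)
    (hdiff : ∀ s : ℂ, 1 ≤ s.im → DifferentiableAt ℂ F s)
    (hbd : ∀ σ t : ℝ, σ0 ≤ σ → σ ≤ σ1 → 1 ≤ t → ‖F ((σ : ℂ) + (t : ℂ) * I)‖ ≤ C * t ^ ε)
    {X κ : ℝ} (hX : 1 ≤ X) (hκ : 0 < κ) (hκ1 : κ ≤ 1) :
    ∀ᶠ T : ℝ in atTop, ‖∫ y in (1 : ℝ)..T, Hf F X κ ((σ1 : ℂ) + (y : ℂ) * I)‖ ≤
      (C * Real.exp (σ1 ^ 2)) * (2 * (σ1 - σ0) * X ^ σ1 + X ^ σ0 * Jk ε κ) := by
  filter_upwards [tail_small (ε := ε) hκ, eventually_ge_atTop (1 : ℝ)] with T hT hT1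
  have hX0 : 0 < X := by linarith
  set f : ℂ → ℂ := Hf F X κ with hf
  have hrect := Complex.integral_boundary_rect_eq_zero_of_differentiableOn f
    ((σ0 : ℂ) + ((1 : ℝ) : ℂ) * I) ((σ1 : ℂ) + (T : ℂ) * I) (by
      intro s hs
      refine (Hf_diffAt (hdiff s ?_)).differentiableWithinAt
      rw [Complex.mem_reProdIm] at hs
      have h2 := hs.2
      simp only [add_im, ofReal_im, mul_im, ofReal_re, I_im, mul_one, I_re, mul_zero, zero_add,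
        add_zero] at h2
      rw [Set.uIcc_of_le hT1] at h2
      exact h2.1)
  simp only [add_re, ofReal_re, mul_re, I_re, mul_zero, ofReal_im, I_im, mul_one, sub_self,
    add_zero, add_im, mul_im, zero_add] at hrect
  set A := ∫ x in σ0..σ1, f ((x : ℂ) + ((1 : ℝ) : ℂ) * I) with hA
  set B := ∫ x in σ0..σ1, f ((x : ℂ) + (T : ℂ) * I) with hB
  set U := ∫ y in (1 : ℝ)..T, f ((σ1 : ℂ) + (y : ℂ) * I) with hU
  set V := ∫ y in (1 : ℝ)..T, f ((σ0 : ℂ) + (y : ℂ) * I) with hV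
  have hIU : I * U = I * V - A + B := by
    simp only [smul_eq_mul] at hrect
    linear_combination hrect
  have hnU : ‖U‖ ≤ ‖V‖ + ‖A‖ + ‖B‖ := by
    have : ‖U‖ = ‖I * U‖ := by rw [norm_mul, Complex.norm_I, one_mul]
    rw [this, hIU]
    calc ‖I * V - A + B‖ ≤ ‖I * V - A‖ + ‖B‖ := norm_add_le _ _
      _ ≤ ‖I * V‖ + ‖A‖ + ‖B‖ := by gcongr; exact norm_sub_le _ _
      _ = ‖V‖ + ‖A‖ + ‖B‖ := by rw [norm_mul, Complex.norm_I, one_mul]
  set D := C * Real.exp (σ1 ^ 2) with hD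
  have hD0 : 0 ≤ D := by positivity
  have hXmono : ∀ x, x ≤ σ1 → X ^ x ≤ X ^ σ1 := fun x hx => Real.rpow_le_rpow_of_exponent_le hX hx
  have hAb : ‖A‖ ≤ D * X ^ σ1 * (σ1 - σ0) := by
    have := intervalIntegral.norm_integral_le_of_norm_le_const (a := σ0) (b := σ1)
      (C := D * X ^ σ1) (f := fun x : ℝ => f ((x : ℂ) + ((1 : ℝ) : ℂ) * I)) (by
        intro x hx
        rw [Set.uIoc_of_le h01] at hx
        refine (Hf_bound h0 hC hbd hX hκ hκ1 hx.1.le hx.2 le_rfl).trans ?_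
        have h1 : (1 : ℝ) ^ ε * Real.exp (-κ * 1 ^ 2) ≤ 1 := by
          rw [Real.one_rpow, one_mul, Real.exp_le_one_iff]
          nlinarith
        calc D * X ^ x * (1 ^ ε * Real.exp (-κ * 1 ^ 2)) ≤ D * X ^ x * 1 := by
              gcongr
          _ ≤ D * X ^ σ1 := by
              rw [mul_one]; exact mul_le_mul_of_nonneg_left (hXmono x hx.2) hD0)
    rwa [abs_of_nonneg (by linarith)] at this
  have hBb : ‖B‖ ≤ D * X ^ σ1 * (σ1 - σ0) := by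
    have := intervalIntegral.norm_integral_le_of_norm_le_const (a := σ0) (b := σ1)
      (C := D * X ^ σ1) (f := fun x : ℝ => f ((x : ℂ) + (T : ℂ) * I)) (by
        intro x hx
        rw [Set.uIoc_of_le h01] at hx
        refine (Hf_bound h0 hC hbd hX hκ hκ1 hx.1.le hx.2 hT1).trans ?_
        calc D * X ^ x * (T ^ ε * Real.exp (-κ * T ^ 2)) ≤ D * X ^ x * 1 := by
              gcongr
          _ ≤ D * X ^ σ1 := by
              rw [mul_one]; exact mul_le_mul_of_nonneg_left (hXmono x hx.2) hD0)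
    rwa [abs_of_nonneg (by linarith)] at this
  have hVb : ‖V‖ ≤ D * X ^ σ0 * Jk ε κ := by
    have h1 : ‖V‖ ≤ ∫ y in (1 : ℝ)..T, D * X ^ σ0 * (y ^ ε * Real.exp (-κ * y ^ 2)) := by
      refine intervalIntegral.norm_integral_le_of_norm_le hT1 ?_ ?_
      · refine Eventually.of_forall (fun y hy => ?_)
        exact Hf_bound h0 hC hbd hX hκ hκ1 le_rfl h01 hy.1.le
      · apply ContinuousOn.intervalIntegrable
        refine ContinuousOn.mul continuousOn_const (ContinuousOn.mul ?_ (by fun_prop))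
        refine ContinuousOn.rpow_const continuousOn_id ?_
        intro y hy
        rw [Set.uIcc_of_le hT1] at hy
        left
        have : (0 : ℝ) < y := by linarith [hy.1]
        exact this.ne'
    refine h1.trans ?_
    rw [intervalIntegral.integral_const_mul]
    exact mul_le_mul_of_nonneg_left (Jk_part hε hκ hT1) (by positivity)
  calc ‖U‖ ≤ D * X ^ σ0 * Jk ε κ + D * X ^ σ1 * (σ1 - σ0) + D * X ^ σ1 * (σ1 - σ0) := by
        linarith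
    _ = D * (2 * (σ1 - σ0) * X ^ σ1 + X ^ σ0 * Jk ε κ) := by ring

/-- The counting inequality. -/
theorem main_ineq {ι : Type} [Countable ι] {F : ℂ → ℂ} (lam : ι → ℝ) (hlam : ∀ m, 0 < lam m)
    {σ0 σ1 C ε : ℝ} (h0 : 0 ≤ σ0) (h01 : σ0 ≤ σ1) (hC : 0 ≤ C)
    (hε : 0 < ε) (hsum : Summable (fun m => (lam m) ^ (-σ1)))
    (hF : ∀ t : ℝ, HasSum (fun m => ((lam m : ℝ) : ℂ) ^ (-((σ1 : ℂ) + (t : ℂ) * I)))
      (F ((σ1 : ℂ) + (t : ℂ) * I)))
    (hdiff : ∀ s : ℂ, 1 ≤ s.im → DifferentiableAt ℂ F s)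
    (hbd : ∀ σ t : ℝ, σ0 ≤ σ → σ ≤ σ1 → 1 ≤ t → ‖F ((σ : ℂ) + (t : ℂ) * I)‖ ≤ C * t ^ ε) :
    ∃ K : ℝ, 0 < K ∧ ∀ X : ℝ, 1 ≤ X → ∀ κ : ℝ, 0 < κ → κ ≤ 1 →
      ∀ S : Finset ι, (∀ m ∈ S, (Real.log X - Real.log (lam m)) ^ 2 ≤ κ) →
        (S.card : ℝ) ≤ K * (Real.sqrt κ * X ^ σ1 + X ^ σ0 * κ ^ (-ε / 2)) := by
  set A : ℝ := ∑' m, (lam m) ^ (-σ1) with hA
  have hA0 : 0 ≤ A := tsum_nonneg (fun m => (Real.rpow_pos_of_pos (hlam m) _).le)
  set D := C * Real.exp (σ1 ^ 2) with hD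
  have hD0 : 0 ≤ D := by positivity
  set Γ0 := Real.Gamma ((ε + 1) / 2) with hΓ
  have hΓ0 : 0 < Γ0 := Real.Gamma_pos_of_pos (by linarith)
  set K1 : ℝ := 2 * D * (2 * (σ1 - σ0)) + 2 * (A * Real.exp (σ1 ^ 2)) with hK1
  set K2 : ℝ := 2 * D * (1 / 2 * Γ0) with hK2
  have hK10 : 0 ≤ K1 := by
    have : 0 ≤ σ1 - σ0 := by linarith
    positivity
  have hK20 : 0 ≤ K2 := by positivity
  refine ⟨Real.exp 1 * (K1 + K2 + 1), by positivity, ?_⟩
  intro X hX κ hκ hκ1 S hS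
  have hX0 : 0 < X := by linarith
  set f : ℂ → ℂ := Hf F X κ with hf
  -- the total integral
  have hseries : ∀ t : ℝ, ∑' m, Ek σ1 κ (Real.log X - Real.log (lam m)) t =
      f ((σ1 : ℂ) + (t : ℂ) * I) := fun t => Hf_series F lam hlam hF X κ t
  have htot := sum_integral lam hlam hsum hX0 hκ
  simp only [hseries] at htot
  -- integrability of f on the line
  have hnorm : ∀ t : ℝ, ‖f ((σ1 : ℂ) + (t : ℂ) * I)‖ ≤
      A * (X ^ σ1 * Real.exp (κ * σ1 ^ 2)) * Real.exp (-κ * t ^ 2) := by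
    intro t
    rw [hf, Hf_norm F hX0 κ σ1 t]
    have h1 : ‖F ((σ1 : ℂ) + (t : ℂ) * I)‖ ≤ A := by
      rw [← (hF t).tsum_eq]
      have h2 : ∀ m, ‖((lam m : ℝ) : ℂ) ^ (-((σ1 : ℂ) + (t : ℂ) * I))‖ = (lam m) ^ (-σ1) := by
        intro m
        rw [Complex.norm_cpow_eq_rpow_re_of_pos (hlam m)]
        simp
      have h3 := norm_tsum_le_tsum_norm (f := fun m => ((lam m : ℝ) : ℂ) ^ (-((σ1 : ℂ) + (t : ℂ) * I)))
        (by simpa only [h2] using hsum)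
      simpa only [h2] using h3
    calc ‖F ((σ1 : ℂ) + (t : ℂ) * I)‖ * (X ^ σ1 * Real.exp (κ * σ1 ^ 2) * Real.exp (-κ * t ^ 2))
        ≤ A * (X ^ σ1 * Real.exp (κ * σ1 ^ 2) * Real.exp (-κ * t ^ 2)) := by
          gcongr
      _ = _ := by ring
  have hmeas : AEStronglyMeasurable (fun t : ℝ => f ((σ1 : ℂ) + (t : ℂ) * I)) volume := by
    have h1 : (fun t : ℝ => f ((σ1 : ℂ) + (t : ℂ) * I)) =
        fun t : ℝ => ∑' m, Ek σ1 κ (Real.log X - Real.log (lam m)) t := by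
      funext t; rw [hseries]
    rw [h1]
    exact (Measurable.tsum (fun m => (Ek_cont σ1 κ _).measurable)).aestronglyMeasurable
  have hint : Integrable (fun t : ℝ => f ((σ1 : ℂ) + (t : ℂ) * I)) := by
    refine Integrable.mono' ((integrable_exp_neg_mul_sq hκ).const_mul
      (A * (X ^ σ1 * Real.exp (κ * σ1 ^ 2)))) hmeas (Eventually.of_forall hnorm)
  -- upper part
  have hup : ‖∫ t in Ioi (1 : ℝ), f ((σ1 : ℂ) + (t : ℂ) * I)‖ ≤
      D * (2 * (σ1 - σ0) * X ^ σ1 + X ^ σ0 * Jk ε κ) := by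
    have h1 := intervalIntegral_tendsto_integral_Ioi (1 : ℝ) hint.integrableOn tendsto_id
    refine le_of_tendsto h1.norm ?_
    exact upper_bound h0 h01 hC hε hdiff hbd hX hκ hκ1
  -- lower part
  have hlow : ‖∫ t in Iic (-1 : ℝ), f ((σ1 : ℂ) + (t : ℂ) * I)‖ =
      ‖∫ t in Ioi (1 : ℝ), f ((σ1 : ℂ) + (t : ℂ) * I)‖ := by
    have h1 := integral_comp_neg_Ioi (1 : ℝ) (fun t : ℝ => f ((σ1 : ℂ) + (t : ℂ) * I))
    rw [← h1]
    have h2 : ∀ t : ℝ, f ((σ1 : ℂ) + ((-t : ℝ) : ℂ) * I) =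
        (starRingEnd ℂ) (f ((σ1 : ℂ) + (t : ℂ) * I)) := fun t => Hf_conj F lam hlam hF X κ t
    simp only [h2]
    rw [integral_conj]
    exact Complex.norm_conj _
  -- middle part
  have hmid : ‖∫ t in (-1 : ℝ)..1, f ((σ1 : ℂ) + (t : ℂ) * I)‖ ≤
      2 * (A * Real.exp (σ1 ^ 2)) * X ^ σ1 := by
    have := intervalIntegral.norm_integral_le_of_norm_le_const (a := (-1 : ℝ)) (b := 1)
      (C := A * (X ^ σ1 * Real.exp (σ1 ^ 2))) (f := fun t : ℝ => f ((σ1 : ℂ) + (t : ℂ) * I)) (by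
        intro t _
        refine (hnorm t).trans ?_
        have h1 : Real.exp (-κ * t ^ 2) ≤ 1 := by
          rw [Real.exp_le_one_iff]; nlinarith [sq_nonneg t]
        have h2 : Real.exp (κ * σ1 ^ 2) ≤ Real.exp (σ1 ^ 2) := by
          apply Real.exp_le_exp.mpr; nlinarith [sq_nonneg σ1]
        calc A * (X ^ σ1 * Real.exp (κ * σ1 ^ 2)) * Real.exp (-κ * t ^ 2)
            ≤ A * (X ^ σ1 * Real.exp (σ1 ^ 2)) * 1 := by gcongr
          _ = _ := by ring)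
    refine this.trans (le_of_eq ?_)
    norm_num
    ring
  have hsplit : ∫ t : ℝ, f ((σ1 : ℂ) + (t : ℂ) * I) =
      (∫ t in Iic (-1 : ℝ), f ((σ1 : ℂ) + (t : ℂ) * I)) +
      (∫ t in (-1 : ℝ)..1, f ((σ1 : ℂ) + (t : ℂ) * I)) +
      (∫ t in Ioi (1 : ℝ), f ((σ1 : ℂ) + (t : ℂ) * I)) := by
    rw [← intervalIntegral.integral_Iic_add_Ioi hint.integrableOn hint.integrableOn (b := (1 : ℝ))]
    congr 1
    have := intervalIntegral.integral_Iic_sub_Iic (a := (-1 : ℝ)) (b := 1) (μ := volume)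
      (f := fun t : ℝ => f ((σ1 : ℂ) + (t : ℂ) * I)) hint.integrableOn hint.integrableOn
    rw [← this]; ring
  have htotal : ‖∫ t : ℝ, f ((σ1 : ℂ) + (t : ℂ) * I)‖ ≤
      K1 * X ^ σ1 + K2 * (X ^ σ0 * κ ^ (-(ε + 1) / 2)) := by
    rw [hsplit]
    calc _ ≤ ‖∫ t in Iic (-1 : ℝ), f ((σ1 : ℂ) + (t : ℂ) * I)‖ +
        ‖∫ t in (-1 : ℝ)..1, f ((σ1 : ℂ) + (t : ℂ) * I)‖ +
        ‖∫ t in Ioi (1 : ℝ), f ((σ1 : ℂ) + (t : ℂ) * I)‖ :=
          (norm_add_le _ _).trans (by gcongr; exact norm_add_le _ _)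
      _ ≤ D * (2 * (σ1 - σ0) * X ^ σ1 + X ^ σ0 * Jk ε κ) +
          2 * (A * Real.exp (σ1 ^ 2)) * X ^ σ1 +
          D * (2 * (σ1 - σ0) * X ^ σ1 + X ^ σ0 * Jk ε κ) := by
          rw [hlow]; gcongr
      _ = _ := by
          rw [Jk_eq hε hκ, hK1, hK2]; ring
  -- the finite sum
  have hre : Real.sqrt (Real.pi / κ) *
      ∑ m ∈ S, Real.exp (-(Real.log X - Real.log (lam m)) ^ 2 / (4 * κ)) ≤
      K1 * X ^ σ1 + K2 * (X ^ σ0 * κ ^ (-(ε + 1) / 2)) := by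
    have h1 := (Complex.hasSum_ofReal (f := fun m => Real.sqrt (Real.pi / κ) *
      Real.exp (-(Real.log X - Real.log (lam m)) ^ 2 / (4 * κ)))
      (x := (∫ t : ℝ, f ((σ1 : ℂ) + (t : ℂ) * I)).re)).mp (by
        have h2 := Complex.hasSum_re htot
        simp only [Complex.ofReal_re] at h2
        exact Complex.hasSum_ofReal.mpr h2)
    rw [Finset.mul_sum]
    refine (sum_le_hasSum S (fun m _ => by positivity) h1).trans ?_
    exact (Complex.re_le_norm _).trans htotal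
  have hcard : (S.card : ℝ) * Real.exp (-1) ≤
      ∑ m ∈ S, Real.exp (-(Real.log X - Real.log (lam m)) ^ 2 / (4 * κ)) := by
    rw [← nsmul_eq_mul]
    refine Finset.card_nsmul_le_sum S _ _ (fun m hm => ?_)
    apply Real.exp_le_exp.mpr
    rw [neg_div]
    apply neg_le_neg
    rw [div_le_one (by positivity)]
    have := hS m hm
    linarith
  have hsq : 1 ≤ Real.sqrt κ * Real.sqrt (Real.pi / κ) := by
    rw [← Real.sqrt_mul hκ.le, mul_div_cancel₀ _ hκ.ne']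
    rw [Real.one_le_sqrt]
    linarith [Real.pi_gt_three]
  have hpw : Real.sqrt κ * κ ^ (-(ε + 1) / 2) = κ ^ (-ε / 2) := by
    rw [Real.sqrt_eq_rpow, ← Real.rpow_add hκ]
    congr 1; ring
  have hfin : (S.card : ℝ) * Real.exp (-1) ≤
      K1 * (Real.sqrt κ * X ^ σ1) + K2 * (X ^ σ0 * κ ^ (-ε / 2)) := by
    calc (S.card : ℝ) * Real.exp (-1)
        ≤ (Real.sqrt κ * Real.sqrt (Real.pi / κ)) * ((S.card : ℝ) * Real.exp (-1)) :=
          le_mul_of_one_le_left (by positivity) hsq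
      _ ≤ (Real.sqrt κ * Real.sqrt (Real.pi / κ)) *
          ∑ m ∈ S, Real.exp (-(Real.log X - Real.log (lam m)) ^ 2 / (4 * κ)) := by gcongr
      _ = Real.sqrt κ * (Real.sqrt (Real.pi / κ) *
          ∑ m ∈ S, Real.exp (-(Real.log X - Real.log (lam m)) ^ 2 / (4 * κ))) := by ring
      _ ≤ Real.sqrt κ * (K1 * X ^ σ1 + K2 * (X ^ σ0 * κ ^ (-(ε + 1) / 2))) := by gcongr
      _ = K1 * (Real.sqrt κ * X ^ σ1) + K2 * (X ^ σ0 * (Real.sqrt κ * κ ^ (-(ε + 1) / 2))) := by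
          ring
      _ = _ := by rw [hpw]
  have hP1 : 0 ≤ Real.sqrt κ * X ^ σ1 := by positivity
  have hP2 : 0 ≤ X ^ σ0 * κ ^ (-ε / 2) := by positivity
  calc (S.card : ℝ) = Real.exp 1 * ((S.card : ℝ) * Real.exp (-1)) := by
        rw [mul_comm (S.card : ℝ), ← mul_assoc, ← Real.exp_add]; simp
    _ ≤ Real.exp 1 * (K1 * (Real.sqrt κ * X ^ σ1) + K2 * (X ^ σ0 * κ ^ (-ε / 2))) := by gcongr
    _ ≤ Real.exp 1 * ((K1 + K2 + 1) * (Real.sqrt κ * X ^ σ1 + X ^ σ0 * κ ^ (-ε / 2))) := by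
        gcongr
        nlinarith [mul_nonneg hK10 hP2, mul_nonneg hK20 hP1]
    _ = _ := by ring

end

end Pool.Agent.H131R5.BZ
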