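import Pool.Agent.H131R5.BZ3
import Pool.Agent.H131R5.BZ5

set_option autoImplicit false

/-!
Barnes multiple zeta function, part 6: Liouville weights.
-/

namespace Pool.Agent.H131R5.BZ

open Finset Filter Topology

noncomputable section

lemma liouville_approx {ξ : ℝ} (hξ : 0 < ξ) (hL : Liouville ξ) {R : ℕ} (hR : ξ + 1 ≤ R) (Q : ℝ) :
    ∃ q p : ℕ, Q ≤ q ∧ 2 ≤ q ∧ (p : ℝ) / q ≤ R ∧ |ξ - (p : ℝ) / q| < 1 / (q : ℝ) ^ 100 := by
  obtain ⟨N, hN⟩ := exists_nat_ge (max Q (max 2 (1 / ξ)))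
  obtain ⟨q, ⟨a, _, ha⟩, hq⟩ :=
    ((hL.frequently_exists_num 100).and_eventually (eventually_ge_atTop N)).exists
  have hqN : (N : ℝ) ≤ q := by exact_mod_cast hq
  have hq1 : Q ≤ q := (le_max_left _ _).trans (hN.trans hqN)
  have hq2 : (2 : ℝ) ≤ q := ((le_max_left _ _).trans (le_max_right _ _)).trans (hN.trans hqN)
  have hq3 : 1 / ξ ≤ q := ((le_max_right _ _).trans (le_max_right _ _)).trans (hN.trans hqN)
  have hq0 : (0 : ℝ) < q := by linarith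
  have hpow : (q : ℝ) ≤ (q : ℝ) ^ 100 := by
    calc (q : ℝ) = (q : ℝ) ^ 1 := (pow_one _).symm
      _ ≤ (q : ℝ) ^ 100 := pow_le_pow_right₀ (by linarith) (by norm_num)
  have hsmall : 1 / (q : ℝ) ^ 100 ≤ 1 / (q : ℝ) := one_div_le_one_div_of_le hq0 hpow
  have hqξ : 1 / (q : ℝ) ≤ ξ := by
    rw [div_le_iff₀ hq0]
    rw [div_le_iff₀ hξ] at hq3
    linarith
  have h1 := abs_lt.mp ha
  have ha0 : 0 < (a : ℝ) / q := by linarith [h1.2]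
  have ha1 : 0 < (a : ℝ) := by
    by_contra h
    push Not at h
    have := div_nonpos_of_nonpos_of_nonneg h hq0.le
    linarith
  have ha2 : 0 < a := by exact_mod_cast ha1
  have ha3 : ((a.toNat : ℕ) : ℝ) = (a : ℝ) := by
    have : ((a.toNat : ℕ) : ℤ) = a := Int.toNat_of_nonneg ha2.le
    exact_mod_cast this
  have h2 : 1 / (q : ℝ) ≤ 1 := by
    rw [div_le_one hq0]; linarith
  refine ⟨q, a.toNat, hq1, by exact_mod_cast hq2, ?_, ?_⟩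
  · rw [ha3]; linarith [h1.1]
  · rw [ha3]; exact ha

/-- pigeonhole -/
lemma pigeon (q p R : ℕ) (hq : 1 ≤ q) (hR : 1 ≤ R) (hp : p ≤ R * q) (hqR : 4 * R ^ 2 ≤ q) :
    ∃ N : ℕ, N ≤ 3 * R ^ 2 * q ^ 18 ∧
      q ^ 29 ≤ ((Fintype.piFinset (fun _ : Fin 3 => range (q ^ 16 + 1))).filter
        (fun m => m 0 * q ^ 2 + m 1 * (p * q) + m 2 * p ^ 2 = N)).card := by
  have hmaps : ∀ m ∈ Fintype.piFinset (fun _ : Fin 3 => range (q ^ 16 + 1)),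
      m 0 * q ^ 2 + m 1 * (p * q) + m 2 * p ^ 2 ∈ range (3 * R ^ 2 * q ^ 18 + 1) := by
    intro m hm
    rw [Fintype.mem_piFinset] at hm
    have h0 : m 0 ≤ q ^ 16 := Nat.lt_succ_iff.mp (Finset.mem_range.mp (hm 0))
    have h1 : m 1 ≤ q ^ 16 := Nat.lt_succ_iff.mp (Finset.mem_range.mp (hm 1))
    have h2 : m 2 ≤ q ^ 16 := Nat.lt_succ_iff.mp (Finset.mem_range.mp (hm 2))
    rw [Finset.mem_range, Nat.lt_succ_iff]
    have hR2 : 1 ≤ R ^ 2 := Nat.one_le_pow _ _ hR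
    have hRR : R ≤ R ^ 2 := by nlinarith
    calc m 0 * q ^ 2 + m 1 * (p * q) + m 2 * p ^ 2
        ≤ q ^ 16 * q ^ 2 + q ^ 16 * (R * q * q) + q ^ 16 * (R * q) ^ 2 := by gcongr
      _ = q ^ 18 + R * q ^ 18 + R ^ 2 * q ^ 18 := by ring
      _ ≤ R ^ 2 * q ^ 18 + R ^ 2 * q ^ 18 + R ^ 2 * q ^ 18 := by
          gcongr
          exact le_mul_of_one_le_left (Nat.zero_le _) hR2
      _ = 3 * R ^ 2 * q ^ 18 := by ring
  have hcard : (range (3 * R ^ 2 * q ^ 18 + 1)).card * q ^ 29 ≤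
      (Fintype.piFinset (fun _ : Fin 3 => range (q ^ 16 + 1))).card := by
    rw [Finset.card_range, Fintype.card_piFinset]
    simp only [Finset.card_range, Finset.prod_const, Finset.card_univ, Fintype.card_fin]
    have hR2 : 1 ≤ R ^ 2 := Nat.one_le_pow _ _ hR
    have hq18 : 1 ≤ R ^ 2 * q ^ 18 := Nat.one_le_iff_ne_zero.mpr (by positivity)
    calc (3 * R ^ 2 * q ^ 18 + 1) * q ^ 29 ≤ (3 * R ^ 2 * q ^ 18 + R ^ 2 * q ^ 18) * q ^ 29 := by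
          gcongr
      _ = (4 * R ^ 2) * q ^ 47 := by ring
      _ ≤ q * q ^ 47 := by gcongr
      _ = (q ^ 16) ^ 3 := by ring
      _ ≤ (q ^ 16 + 1) ^ 3 := by gcongr; omega
  obtain ⟨N, hN, hc⟩ := Finset.exists_le_card_fiber_of_mul_le_card_of_maps_to hmaps
    (⟨0, by simp⟩) hcard
  exact ⟨N, Nat.lt_succ_iff.mp (Finset.mem_range.mp hN), hc⟩

lemma log_lip {x y : ℝ} (hx : 1 ≤ x) (hy : 1 ≤ y) : (Real.log x - Real.log y) ^ 2 ≤ (x - y) ^ 2 := by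
  have h : ∀ u v : ℝ, 1 ≤ u → 1 ≤ v → Real.log u - Real.log v ≤ |u - v| := by
    intro u v hu hv
    rw [← Real.log_div (by positivity) (by positivity)]
    refine (Real.log_le_sub_one_of_pos (by positivity)).trans ?_
    have : u / v - 1 = (u - v) / v := by field_simp
    rw [this]
    calc (u - v) / v ≤ |u - v| / v := by gcongr; exact le_abs_self _
      _ ≤ |u - v| / 1 := by gcongr
      _ = |u - v| := div_one _
  rw [← sq_abs (x - y)]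
  apply sq_le_sq'
  · have := h y x hy hx
    rw [abs_sub_comm] at this
    linarith
  · exact h x y hx hy

/-- the weights `(1, ξ, ξ²)` -/
def wv (ξ : ℝ) : Fin 3 → ℝ := fun j => ξ ^ (j : ℕ)

lemma wv_pos {ξ : ℝ} (hξ : 0 < ξ) (j : Fin 3) : 0 < wv ξ j := by
  unfold wv; positivity

lemma lam_wv (ξ : ℝ) (m : Fin 3 → ℕ) :
    lam 1 (wv ξ) m = 1 + m 0 + m 1 * ξ + m 2 * ξ ^ 2 := by
  unfold lam wv
  rw [Fin.sum_univ_three]
  simp
  ring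

theorem no_bound {ξ : ℝ} (hξ : 0 < ξ) (hL : Liouville ξ) {K : ℝ} (hK : 0 < K)
    (h : ∀ X : ℝ, 1 ≤ X → ∀ κ : ℝ, 0 < κ → κ ≤ 1 →
      ∀ S : Finset (Fin 3 → ℕ), (∀ m ∈ S, (Real.log X - Real.log (lam 1 (wv ξ) m)) ^ 2 ≤ κ) →
        (S.card : ℝ) ≤ K * (Real.sqrt κ * X ^ (4 : ℝ) + X ^ (3 / 2 : ℝ) * κ ^ (-(1 / 12 : ℝ) / 2))) :
    False := by
  obtain ⟨R, hR⟩ := exists_nat_ge (ξ + 1)
  have hR1 : (1 : ℝ) ≤ R := by linarith
  have hR1' : 1 ≤ R := by exact_mod_cast hR1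
  obtain ⟨q, p, hQ, hq2, hpq, happ⟩ := liouville_approx hξ hL hR
    (max (4 * (R : ℝ) ^ 2) (max (3 * R) (264 * K * (R : ℝ) ^ 8 + 1)))
  have hQ1 : 4 * (R : ℝ) ^ 2 ≤ q := (le_max_left _ _).trans hQ
  have hQ2 : 3 * (R : ℝ) ≤ q := ((le_max_left _ _).trans (le_max_right _ _)).trans hQ
  have hQ3 : 264 * K * (R : ℝ) ^ 8 + 1 ≤ q :=
    ((le_max_right _ _).trans (le_max_right _ _)).trans hQ
  have hq0 : (0 : ℝ) < q := by positivity
  have hq1 : (1 : ℝ) ≤ q := by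
    have : (2 : ℝ) ≤ q := by exact_mod_cast hq2
    linarith
  have hp : p ≤ R * q := by
    rw [div_le_iff₀ hq0] at hpq
    exact_mod_cast hpq
  obtain ⟨N, hN, hc⟩ := pigeon q p R (by omega) hR1' hp (by exact_mod_cast hQ1)
  set S := (Fintype.piFinset (fun _ : Fin 3 => range (q ^ 16 + 1))).filter
        (fun m => m 0 * q ^ 2 + m 1 * (p * q) + m 2 * p ^ 2 = N) with hS
  set X : ℝ := 1 + N / (q : ℝ) ^ 2 with hX
  have hX1 : 1 ≤ X := by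
    rw [hX]; have : 0 ≤ (N : ℝ) / (q : ℝ) ^ 2 := by positivity
    linarith
  have hXle : X ≤ 4 * (R : ℝ) ^ 2 * (q : ℝ) ^ 16 := by
    have h1 : (N : ℝ) ≤ 3 * (R : ℝ) ^ 2 * (q : ℝ) ^ 18 := by exact_mod_cast hN
    have h2 : (N : ℝ) / (q : ℝ) ^ 2 ≤ 3 * (R : ℝ) ^ 2 * (q : ℝ) ^ 16 := by
      rw [div_le_iff₀ (by positivity)]
      calc (N : ℝ) ≤ 3 * (R : ℝ) ^ 2 * (q : ℝ) ^ 18 := h1
        _ = _ := by ring
    have h3 : 1 ≤ (R : ℝ) ^ 2 * (q : ℝ) ^ 16 := by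
      have := one_le_pow₀ hR1 (n := 2)
      have := one_le_pow₀ hq1 (n := 16)
      nlinarith
    rw [hX]; linarith
  set κ : ℝ := ((q : ℝ) ^ 96)⁻¹ with hκ
  have hκ0 : 0 < κ := by positivity
  have hκ1 : κ ≤ 1 := inv_le_one_of_one_le₀ (one_le_pow₀ hq1)
  have hSκ : ∀ m ∈ S, (Real.log X - Real.log (lam 1 (wv ξ) m)) ^ 2 ≤ κ := by
    intro m hm
    rw [hS, Finset.mem_filter, Fintype.mem_piFinset] at hm
    obtain ⟨hm1, hm2⟩ := hm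
    have h0 : (m 0 : ℝ) ≤ (q : ℝ) ^ 16 := by
      exact_mod_cast Nat.lt_succ_iff.mp (Finset.mem_range.mp (hm1 0))
    have h1 : (m 1 : ℝ) ≤ (q : ℝ) ^ 16 := by
      exact_mod_cast Nat.lt_succ_iff.mp (Finset.mem_range.mp (hm1 1))
    have h2 : (m 2 : ℝ) ≤ (q : ℝ) ^ 16 := by
      exact_mod_cast Nat.lt_succ_iff.mp (Finset.mem_range.mp (hm1 2))
    have hm3 : (m 0 : ℝ) * (q : ℝ) ^ 2 + m 1 * (p * q) + m 2 * (p : ℝ) ^ 2 = N := by
      exact_mod_cast hm2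
    refine (log_lip hX1 (lam_ge (wv_pos hξ) m)).trans ?_
    have hdiff : X - lam 1 (wv ξ) m = m 1 * ((p : ℝ) / q - ξ) +
        m 2 * (((p : ℝ) / q - ξ) * ((p : ℝ) / q + ξ)) := by
      rw [lam_wv, hX, ← hm3]
      field_simp
      ring
    have hab : |X - lam 1 (wv ξ) m| ≤ ((q : ℝ) ^ 48)⁻¹ := by
      rw [hdiff]
      have hx : |(p : ℝ) / q - ξ| ≤ ((q : ℝ) ^ 100)⁻¹ := by
        rw [abs_sub_comm, ← one_div]; exact happ.le
      have hy : |(p : ℝ) / q + ξ| ≤ 2 * R := by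
        rw [abs_of_nonneg (by positivity)]
        linarith
      calc |(m 1 : ℝ) * ((p : ℝ) / q - ξ) + m 2 * (((p : ℝ) / q - ξ) * ((p : ℝ) / q + ξ))|
          ≤ |(m 1 : ℝ) * ((p : ℝ) / q - ξ)| + |(m 2 : ℝ) * (((p : ℝ) / q - ξ) * ((p : ℝ) / q + ξ))| :=
            abs_add_le _ _
        _ = (m 1 : ℝ) * |(p : ℝ) / q - ξ| + (m 2 : ℝ) * (|(p : ℝ) / q - ξ| * |(p : ℝ) / q + ξ|) := by
            rw [abs_mul, abs_mul, abs_mul, Nat.abs_cast, Nat.abs_cast]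
        _ ≤ (q : ℝ) ^ 16 * ((q : ℝ) ^ 100)⁻¹ + (q : ℝ) ^ 16 * (((q : ℝ) ^ 100)⁻¹ * (2 * R)) := by
            gcongr
        _ = (1 + 2 * R) * ((q : ℝ) ^ 84)⁻¹ := by
            field_simp
        _ ≤ q * ((q : ℝ) ^ 84)⁻¹ := by
            gcongr; linarith
        _ = ((q : ℝ) ^ 83)⁻¹ := by
            field_simp
        _ ≤ ((q : ℝ) ^ 48)⁻¹ := by
            apply inv_anti₀ (by positivity)
            exact pow_le_pow_right₀ hq1 (by norm_num)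
    calc (X - lam 1 (wv ξ) m) ^ 2 = |X - lam 1 (wv ξ) m| ^ 2 := (sq_abs _).symm
      _ ≤ (((q : ℝ) ^ 48)⁻¹) ^ 2 := by gcongr
      _ = κ := by rw [hκ]; field_simp
  have hmain := h X hX1 κ hκ0 hκ1 S hSκ
  have hcard : (q : ℝ) ^ 29 ≤ (S.card : ℝ) := by exact_mod_cast hc
  have hsq : Real.sqrt κ = ((q : ℝ) ^ 48)⁻¹ := by
    have : κ = (((q : ℝ) ^ 48)⁻¹) ^ 2 := by rw [hκ]; field_simp
    rw [this, Real.sqrt_sq (by positivity)]
  have hX4 : X ^ (4 : ℝ) ≤ 256 * (R : ℝ) ^ 8 * (q : ℝ) ^ 64 := by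
    have : X ^ (4 : ℝ) = X ^ (4 : ℕ) := by exact_mod_cast Real.rpow_natCast X 4
    rw [this]
    calc X ^ 4 ≤ (4 * (R : ℝ) ^ 2 * (q : ℝ) ^ 16) ^ 4 := by gcongr
      _ = _ := by ring
  have hX32 : X ^ (3 / 2 : ℝ) ≤ 8 * (R : ℝ) ^ 3 * (q : ℝ) ^ 24 := by
    have h1 : X ^ (3 / 2 : ℝ) ≤ ((2 * (R : ℝ) * (q : ℝ) ^ 8) ^ (2 : ℝ)) ^ (3 / 2 : ℝ) := by
      apply Real.rpow_le_rpow (by linarith) _ (by norm_num)
      rw [Real.rpow_two]
      calc X ≤ 4 * (R : ℝ) ^ 2 * (q : ℝ) ^ 16 := hXle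
        _ = _ := by ring
    have h2 : ((2 * (R : ℝ) * (q : ℝ) ^ 8) ^ (2 : ℝ)) ^ (3 / 2 : ℝ) =
        (2 * (R : ℝ) * (q : ℝ) ^ 8) ^ (3 : ℕ) := by
      rw [← Real.rpow_mul (by positivity), ← Real.rpow_natCast]
      norm_num
    rw [h2] at h1
    calc X ^ (3 / 2 : ℝ) ≤ _ := h1
      _ = _ := by ring
  have hκp : κ ^ (-(1 / 12 : ℝ) / 2) = (q : ℝ) ^ 4 := by
    rw [hκ, ← Real.rpow_natCast, ← Real.rpow_neg hq0.le, ← Real.rpow_mul hq0.le,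
      ← Real.rpow_natCast]
    norm_num
  have hR3 : (R : ℝ) ^ 3 ≤ (R : ℝ) ^ 8 := pow_le_pow_right₀ hR1 (by norm_num)
  have hfinal : (q : ℝ) ^ 29 ≤ K * (264 * (R : ℝ) ^ 8 * (q : ℝ) ^ 28) := by
    refine hcard.trans (hmain.trans ?_)
    rw [hsq, hκp]
    refine mul_le_mul_of_nonneg_left ?_ hK.le
    have hq16 : (q : ℝ) ^ 16 ≤ (q : ℝ) ^ 28 := pow_le_pow_right₀ hq1 (by norm_num)
    calc ((q : ℝ) ^ 48)⁻¹ * X ^ (4 : ℝ) + X ^ (3 / 2 : ℝ) * (q : ℝ) ^ 4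
        ≤ ((q : ℝ) ^ 48)⁻¹ * (256 * (R : ℝ) ^ 8 * (q : ℝ) ^ 64) +
          (8 * (R : ℝ) ^ 3 * (q : ℝ) ^ 24) * (q : ℝ) ^ 4 := by gcongr
      _ = 256 * (R : ℝ) ^ 8 * (q : ℝ) ^ 16 + 8 * (R : ℝ) ^ 3 * (q : ℝ) ^ 28 := by
          field_simp
      _ ≤ 256 * (R : ℝ) ^ 8 * (q : ℝ) ^ 28 + 8 * (R : ℝ) ^ 8 * (q : ℝ) ^ 28 := by gcongr
      _ = _ := by ring
  have hlt : K * (264 * (R : ℝ) ^ 8 * (q : ℝ) ^ 28) < (q : ℝ) ^ 29 := by
    calc K * (264 * (R : ℝ) ^ 8 * (q : ℝ) ^ 28) = (264 * K * (R : ℝ) ^ 8) * (q : ℝ) ^ 28 := by ring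
      _ < q * (q : ℝ) ^ 28 := by
          apply mul_lt_mul_of_pos_right _ (by positivity)
          linarith
      _ = (q : ℝ) ^ 29 := by ring
  linarith

/-- the `ℚ`-dimension -/
lemma finrank_wv {ξ : ℝ} (hξ : Transcendental ℤ ξ) :
    Module.finrank ℚ (Submodule.span ℚ (Set.range (wv ξ))) = 3 := by
  have hT : Transcendental ℚ ξ := by
    intro hA
    exact hξ ((IsFractionRing.isAlgebraic_iff ℤ ℚ ℝ).mpr hA)
  have hli : LinearIndependent ℚ (wv ξ) := by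
    rw [transcendental_iff_injective] at hT
    have h1 : LinearIndependent ℚ (fun j : Fin 3 => (Polynomial.X : Polynomial ℚ) ^ (j : ℕ)) := by
      have := (Polynomial.basisMonomials ℚ).linearIndependent
      have h2 := this.comp (fun j : Fin 3 => (j : ℕ)) Fin.val_injective
      convert h2 using 1
      funext j
      simp [Polynomial.coe_basisMonomials, Polynomial.X_pow_eq_monomial]
    have h3 := h1.map' (Polynomial.aeval ξ : Polynomial ℚ →ₐ[ℚ] ℝ).toLinearMap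
      (LinearMap.ker_eq_bot.mpr hT)
    have h4 : (⇑(Polynomial.aeval ξ : Polynomial ℚ →ₐ[ℚ] ℝ).toLinearMap ∘
        fun j : Fin 3 => (Polynomial.X : Polynomial ℚ) ^ (j : ℕ)) = wv ξ := by
      funext j
      simp [wv]
    rw [h4] at h3
    exact h3
  rw [finrank_span_eq_card hli]
  simp

end

end Pool.Agent.H131R5.BZ
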