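import Mathlib

set_option autoImplicit false
set_option maxHeartbeats 1000000

/-!
Discrete Gaussian measures on lattices (quadratic function `Q` with the parallelogram law):
* second moments of linear functionals increase with the lattice (a second moment version of an
  inequality of Regev and Stephens-Davidowitz);
* a lower bound for second moments by shifts.
-/

namespace Pool.Agent.H131R5.DG

open Finset

noncomputable section

variable {L : Type} [AddCommGroup L]

/-- coordinates for a subgroup -/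
def qe (H : AddSubgroup L) : (L ⧸ H) × H ≃ L where
  toFun x := x.1.out + x.2
  invFun u := (QuotientAddGroup.mk u, ⟨-(QuotientAddGroup.mk (s := H) u).out + u, by
    rw [← QuotientAddGroup.eq]
    exact Quotient.out_eq _⟩)
  left_inv x := by
    obtain ⟨κ, h⟩ := x
    have h1 : (QuotientAddGroup.mk (s := H) (κ.out + (h : L))) = κ := by
      rw [QuotientAddGroup.mk_add_of_mem _ h.2]
      exact Quotient.out_eq _
    ext
    · exact h1
    · simp only [h1]
      abel
  right_inv u := by
    simp only []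
    abel

lemma qe_apply (H : AddSubgroup L) (κ : L ⧸ H) (h : H) : qe H (κ, h) = κ.out + h := rfl

lemma summable_pair {f : L → ℝ} (hf : Summable (fun u => ‖f u‖)) (H : AddSubgroup L) :
    Summable (fun x : L × H => f (x.1 + x.2) * f x.1) := by
  have h1 : Summable (fun x : L × L => f x.1 * f x.2) :=
    summable_mul_of_summable_norm (f := f) (g := f) hf hf
  have h2 : Function.Injective (fun x : L × H => (x.1 + (x.2 : L), x.1)) := by
    rintro ⟨u, h⟩ ⟨v, k⟩ hxy
    simp only [Prod.mk.injEq] at hxy
    obtain ⟨h3, h4⟩ := hxy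
    subst h4
    have h5 : (h : L) = k := add_left_cancel h3
    rw [Prod.mk.injEq]
    exact ⟨rfl, Subtype.ext h5⟩
  have h3 := h1.comp_injective h2
  have h4 : ((fun x : L × L => f x.1 * f x.2) ∘ fun x : L × H => (x.1 + (x.2 : L), x.1)) =
      fun x : L × H => f (x.1 + x.2) * f x.1 := rfl
  rw [h4] at h3
  exact h3

/-- positivity of the periodised correlation -/
lemma pos_sum {f : L → ℝ} (hf : Summable (fun u => ‖f u‖)) (H : AddSubgroup L) :
    0 ≤ ∑' x : L × H, f (x.1 + x.2) * f x.1 := by
  have hs := summable_pair hf H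
  set g : L ⧸ H → ℝ := fun κ => ∑' h : H, f (κ.out + h) with hg
  have hfs : Summable f := hf.of_norm
  -- reindex
  have h1 : ∑' x : L × H, f (x.1 + x.2) * f x.1 = ∑' u : L, f u * ∑' h : H, f (u + h) := by
    rw [hs.tsum_prod]
    refine tsum_congr (fun u => ?_)
    simp only []
    rw [tsum_mul_right, mul_comm]
  rw [h1]
  have hs2 : Summable (fun u : L => f u * ∑' h : H, f (u + h)) := by
    have := hs.prod
    refine this.congr (fun u => ?_)
    simp only []
    rw [tsum_mul_right, mul_comm]
  rw [← (qe H).tsum_eq (fun u : L => f u * ∑' h : H, f (u + h))]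
  have hs3 : Summable (fun x : (L ⧸ H) × H => f (qe H x) * ∑' h : H, f (qe H x + h)) :=
    (qe H).summable_iff.mpr hs2
  rw [hs3.tsum_prod]
  refine tsum_nonneg (fun κ => ?_)
  have h2 : ∀ h' : H, ∑' h : H, f (qe H (κ, h') + h) = g κ := by
    intro h'
    rw [hg]
    simp only []
    rw [← (Equiv.addLeft h').tsum_eq (fun h : H => f (κ.out + h))]
    refine tsum_congr (fun h => ?_)
    rw [qe_apply]
    simp [add_assoc]
  simp only [h2]
  rw [tsum_mul_right]
  have h3 : ∑' h : H, f (qe H (κ, h)) = g κ := rfl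
  rw [h3]
  exact mul_self_nonneg _

/-- Second moments of linear functionals increase with the lattice. -/
theorem mono_second (M : AddSubgroup L) (Q : L → ℝ)
    (hQ : ∀ a b, Q (a + b) + Q (a - b) = 2 * Q a + 2 * Q b)
    (h2 : ∀ a : L, a + a = 0 → a = 0) (ℓ : L →+ ℝ)
    (hs0 : Summable (fun u => Real.exp (-Q u)))
    (hs1 : Summable (fun u => (ℓ u) ^ 2 * Real.exp (-Q u)))
    (hsf : Summable (fun u => ‖ℓ u * Real.exp (-Q u / 2)‖)) :
    (∑' a : M, (ℓ a) ^ 2 * Real.exp (-Q a)) * (∑' b : L, Real.exp (-Q b)) ≤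
      (∑' a : M, Real.exp (-Q a)) * ∑' b : L, (ℓ b) ^ 2 * Real.exp (-Q b) := by
  have hs0M : Summable (fun a : M => Real.exp (-Q a)) :=
    hs0.comp_injective Subtype.val_injective
  have hs1M : Summable (fun a : M => (ℓ a) ^ 2 * Real.exp (-Q a)) :=
    hs1.comp_injective Subtype.val_injective
  have hp1 : Summable (fun x : M × L => ((ℓ x.1) ^ 2 * Real.exp (-Q x.1)) * Real.exp (-Q x.2)) :=
    hs1M.mul_of_nonneg hs0 (fun a => by positivity) (fun b => by positivity)
  have hp2 : Summable (fun x : M × L => Real.exp (-Q x.1) * ((ℓ x.2) ^ 2 * Real.exp (-Q x.2))) :=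
    hs0M.mul_of_nonneg hs1 (fun a => by positivity) (fun b => by positivity)
  have e1 := (hs1M.tsum_mul_tsum hs0 hp1)
  have e2 := (hs0M.tsum_mul_tsum hs1 hp2)
  rw [e1, e2, ← sub_nonneg, ← hp2.tsum_sub hp1]
  set f : L → ℝ := fun u => ℓ u * Real.exp (-Q u / 2) with hf
  have e3 : ∀ x : M × L, Real.exp (-Q x.1) * ((ℓ x.2) ^ 2 * Real.exp (-Q x.2)) -
      ((ℓ x.1) ^ 2 * Real.exp (-Q x.1)) * Real.exp (-Q x.2) = f (x.2 + x.1) * f (x.2 - x.1) := by
    intro x
    rw [hf]
    simp only []
    rw [map_add, map_sub]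
    have h3 : Real.exp (-Q x.1) * Real.exp (-Q x.2) =
        Real.exp (-Q (x.2 + x.1) / 2) * Real.exp (-Q (x.2 - x.1) / 2) := by
      rw [← Real.exp_add, ← Real.exp_add]
      congr 1
      have := hQ x.2 x.1
      linarith
    have : Real.exp (-Q x.1) * ((ℓ x.2) ^ 2 * Real.exp (-Q x.2)) -
      ((ℓ x.1) ^ 2 * Real.exp (-Q x.1)) * Real.exp (-Q x.2) =
      ((ℓ x.2) ^ 2 - (ℓ x.1) ^ 2) * (Real.exp (-Q x.1) * Real.exp (-Q x.2)) := by ring
    rw [this, h3]
    ring
  simp only [e3]
  -- the doubled subgroup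
  set j : M →+ L := M.subtype + M.subtype with hj
  have hj1 : ∀ a : M, j a = (a : L) + a := fun a => rfl
  have hjinj : Function.Injective j := by
    rw [injective_iff_map_eq_zero]
    intro a ha
    rw [hj1] at ha
    exact Subtype.ext (h2 _ ha)
  set E : M ≃+ j.range := AddMonoidHom.ofInjective hjinj with hE
  have hE1 : ∀ a : M, ((E a : j.range) : L) = (a : L) + a := by
    intro a
    rw [← hj1]
    rfl
  let T : M × L ≃ L × j.range :=
    { toFun := fun x => (x.2 - x.1, E x.1)
      invFun := fun y => (E.symm y.2, y.1 + (E.symm y.2 : M))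
      left_inv := by
        rintro ⟨a, b⟩
        simp
      right_inv := by
        rintro ⟨u, h⟩
        simp }
  have e4 : ∑' x : M × L, f (x.2 + x.1) * f (x.2 - x.1) =
      ∑' y : L × j.range, f (y.1 + y.2) * f y.1 := by
    rw [← T.tsum_eq]
    refine tsum_congr (fun x => ?_)
    have : (T x).1 + ((T x).2 : L) = x.2 + x.1 := by
      show x.2 - (x.1 : L) + ((E x.1 : j.range) : L) = x.2 + x.1
      rw [hE1]; abel
    rw [this]
    rfl
  rw [e4]
  exact pos_sum hsf j.range

/-- Lower bound for the second moment by a shift. -/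
theorem shift_lower (Q : L → ℝ)
    (hQ : ∀ a b, Q (a + b) + Q (a - b) = 2 * Q a + 2 * Q b) (D : L →+ ℝ)
    (hs0 : Summable (fun u => Real.exp (-Q u)))
    (hs1 : Summable (fun u => (D u) ^ 2 * Real.exp (-Q u))) (η : L) :
    (D η) ^ 2 * Real.exp (-Q η) * ∑' u, Real.exp (-Q u) ≤
      4 * ∑' u, (D u) ^ 2 * Real.exp (-Q u) := by
  set Z := ∑' u, Real.exp (-Q u) with hZ
  set S := ∑' u, (D u) ^ 2 * Real.exp (-Q u) with hS
  have hQ0 : Q 0 = 0 := by
    have := hQ 0 0
    simp at this
    linarith
  have hQneg : ∀ a, Q (-a) = Q a := by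
    intro a
    have := hQ 0 a
    rw [zero_add, zero_sub, hQ0] at this
    linarith
  have hZpos : 0 < Z := by
    refine hs0.tsum_pos (fun u => (Real.exp_pos _).le) 0 (Real.exp_pos _)
  have hS0 : 0 ≤ S := tsum_nonneg (fun u => by positivity)
  set r : L → ℝ := fun u => Real.exp (-(Q u + Q (u + η)) / 2) with hr
  have hshift0 : Summable (fun u => Real.exp (-Q (u + η))) :=
    (Equiv.addRight η).summable_iff.mpr hs0
  have hshift1 : Summable (fun u => (D (u + η)) ^ 2 * Real.exp (-Q (u + η))) :=
    (Equiv.addRight η).summable_iff.mpr hs1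
  have hshift0e : ∑' u, Real.exp (-Q (u + η)) = Z := (Equiv.addRight η).tsum_eq (fun u => Real.exp (-Q u))
  have hshift1e : ∑' u, (D (u + η)) ^ 2 * Real.exp (-Q (u + η)) = S :=
    (Equiv.addRight η).tsum_eq (fun u => (D u) ^ 2 * Real.exp (-Q u))
  -- `r` in terms of square roots
  have hr2 : ∀ u, r u = Real.exp (-Q u / 2) * Real.exp (-Q (u + η) / 2) := by
    intro u; rw [hr, ← Real.exp_add]; simp only []; congr 1; ring
  have hsq : ∀ x : ℝ, Real.exp (-x / 2) ^ 2 = Real.exp (-x) := by
    intro x; rw [← Real.exp_nat_mul]; congr 1; push_cast; ring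
  have hrle : ∀ u, r u ≤ (Real.exp (-Q u) + Real.exp (-Q (u + η))) := by
    intro u
    rw [hr2, ← hsq (Q u), ← hsq (Q (u + η))]
    nlinarith [sq_nonneg (Real.exp (-Q u / 2) - Real.exp (-Q (u + η) / 2)),
      sq_nonneg (Real.exp (-Q u / 2)), sq_nonneg (Real.exp (-Q (u + η) / 2))]
  have hrs : Summable r :=
    Summable.of_nonneg_of_le (fun u => (Real.exp_pos _).le) hrle (hs0.add hshift0)
  -- lower bound for `∑ r`
  have hlow : Real.exp (-Q η / 2) * Z ≤ ∑' u, r u := by
    have hneg : ∑' u, r (-u) = ∑' u, r u := (Equiv.neg L).tsum_eq r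
    have hrsn : Summable (fun u => r (-u)) := (Equiv.neg L).summable_iff.mpr hrs
    have h1 : ∀ u, 2 * (Real.exp (-Q η / 2) * Real.exp (-Q u)) ≤ r u + r (-u) := by
      intro u
      have h3 : Q (-u + η) = 2 * Q u + 2 * Q η - Q (u + η) := by
        have := hQ η u
        rw [add_comm η u] at this
        have e : η - u = -u + η := by abel
        rw [e] at this
        linarith
      rw [hr]
      simp only []
      rw [hQneg, h3]
      set B := (Q (u + η) - Q u - Q η) / 2 with hB
      have e1 : Real.exp (-(Q u + Q (u + η)) / 2) =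
          (Real.exp (-Q η / 2) * Real.exp (-Q u)) * Real.exp (-B) := by
        rw [← Real.exp_add, ← Real.exp_add]; congr 1; rw [hB]; ring
      have e2 : Real.exp (-(Q u + (2 * Q u + 2 * Q η - Q (u + η))) / 2) =
          (Real.exp (-Q η / 2) * Real.exp (-Q u)) * Real.exp B := by
        rw [← Real.exp_add, ← Real.exp_add]; congr 1; rw [hB]; ring
      rw [e1, e2, ← mul_add]
      have h4 : 2 ≤ Real.exp (-B) + Real.exp B := by
        have := Real.add_one_le_exp B
        have := Real.add_one_le_exp (-B)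
        linarith
      rw [mul_comm]
      exact mul_le_mul_of_nonneg_left h4 (by positivity)
    have h2 := Summable.tsum_le_tsum h1 ((hs0.mul_left _).mul_left 2) (hrs.add hrsn)
    rw [tsum_mul_left, tsum_mul_left, hrs.tsum_add hrsn, hneg] at h2
    linarith
  -- upper bound
  have hupp : ∀ t : ℝ, 0 < t → |D η| * ∑' u, r u ≤ t * S + Z / t := by
    intro t ht
    have h1 : ∀ u, |D η| * r u ≤
        (t / 2 * ((D u) ^ 2 * Real.exp (-Q u)) + 1 / (2 * t) * Real.exp (-Q (u + η))) +
        (t / 2 * ((D (u + η)) ^ 2 * Real.exp (-Q (u + η))) + 1 / (2 * t) * Real.exp (-Q u)) := by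
      intro u
      have hab : |D η| ≤ |D (u + η)| + |D u| := by
        have : D η = D (u + η) - D u := by rw [map_add]; ring
        rw [this]
        exact abs_sub _ _
      have key : ∀ a x y : ℝ, |a| * (x * y) ≤ t / 2 * (a ^ 2 * x ^ 2) + 1 / (2 * t) * y ^ 2 := by
        intro a x y
        have h5 : |a| * (x * y) ≤ |a * x * y| := by
          rw [mul_assoc, abs_mul]
          exact mul_le_mul_of_nonneg_left (le_abs_self _) (abs_nonneg _)
        refine h5.trans ?_
        rw [abs_le]
        have e : t / 2 * (a ^ 2 * x ^ 2) + 1 / (2 * t) * y ^ 2 =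
            ((t * (a * x)) ^ 2 + y ^ 2) / (2 * t) := by
          field_simp
        rw [e]
        constructor
        · rw [← neg_div, div_le_iff₀ (by positivity)]
          nlinarith [sq_nonneg (t * (a * x) + y)]
        · rw [le_div_iff₀ (by positivity)]
          nlinarith [sq_nonneg (t * (a * x) - y)]
      have k1 := key (D u) (Real.exp (-Q u / 2)) (Real.exp (-Q (u + η) / 2))
      have k2 := key (D (u + η)) (Real.exp (-Q (u + η) / 2)) (Real.exp (-Q u / 2))
      rw [hsq, hsq] at k1 k2
      have hrpos : 0 ≤ r u := (Real.exp_pos _).le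
      calc |D η| * r u ≤ (|D (u + η)| + |D u|) * r u := mul_le_mul_of_nonneg_right hab hrpos
        _ = |D u| * (Real.exp (-Q u / 2) * Real.exp (-Q (u + η) / 2)) +
            |D (u + η)| * (Real.exp (-Q (u + η) / 2) * Real.exp (-Q u / 2)) := by
            rw [hr2]; ring
        _ ≤ _ := add_le_add k1 k2
    have h2 := Summable.tsum_le_tsum h1 (hrs.mul_left _)
      (((hs1.mul_left _).add (hshift0.mul_left _)).add ((hshift1.mul_left _).add (hs0.mul_left _)))
    rw [tsum_mul_left, Summable.tsum_add ((hs1.mul_left _).add (hshift0.mul_left _))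
      ((hshift1.mul_left _).add (hs0.mul_left _)), Summable.tsum_add (hs1.mul_left _)
      (hshift0.mul_left _), Summable.tsum_add (hshift1.mul_left _) (hs0.mul_left _),
      tsum_mul_left, tsum_mul_left, tsum_mul_left, tsum_mul_left, hshift0e, hshift1e] at h2
    refine h2.trans (le_of_eq ?_)
    field_simp
    ring
  set R := ∑' u, r u with hR
  have hR0 : 0 ≤ R := tsum_nonneg (fun u => (Real.exp_pos _).le)
  set x := |D η| * R with hx
  have hx0 : 0 ≤ x := by positivity
  have hxx : x ^ 2 ≤ 4 * S * Z := by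
    rcases eq_or_lt_of_le hx0 with h | h
    · rw [← h]
      have : 0 ≤ 4 * S * Z := by positivity
      simpa using this
    · rcases eq_or_lt_of_le hS0 with h' | h'
      · exfalso
        have := hupp (2 * Z / x) (by positivity)
        rw [← h', mul_zero, zero_add] at this
        have e : Z / (2 * Z / x) = x / 2 := by field_simp
        rw [e] at this
        linarith
      · have := hupp (x / (2 * S)) (by positivity)
        have e : x / (2 * S) * S = x / 2 := by field_simp
        have e2 : Z / (x / (2 * S)) = 2 * S * Z / x := by field_simp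
        rw [e, e2] at this
        have h6 : x / 2 ≤ 2 * S * Z / x := by linarith
        rw [le_div_iff₀ h] at h6
        nlinarith
  have hfin : (D η) ^ 2 * (Real.exp (-Q η / 2) * Z) ^ 2 ≤ 4 * S * Z := by
    refine le_trans ?_ hxx
    rw [hx, mul_pow (|D η|) R 2, sq_abs]
    exact mul_le_mul_of_nonneg_left (pow_le_pow_left₀ (by positivity) hlow 2) (sq_nonneg _)
  rw [mul_pow, hsq] at hfin
  have : (D η ^ 2 * Real.exp (-Q η) * Z) * Z ≤ (4 * S) * Z := by
    calc (D η ^ 2 * Real.exp (-Q η) * Z) * Z = D η ^ 2 * (Real.exp (-Q η) * Z ^ 2) := by ring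
      _ ≤ 4 * S * Z := hfin
  exact le_of_mul_le_mul_right this hZpos

end

end Pool.Agent.H131R5.DG
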