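import Pool.Agent.H131R5.DG1

set_option autoImplicit false
set_option maxHeartbeats 1000000

/-!
The long range energy of integer valued, finitely supported configurations on `ℤ`.
-/

namespace Pool.Agent.H131R5.DG

open Finset

noncomputable section

/-- coupling -/
def cf (α : ℝ) (p : ℤ × ℤ) : ℝ := |((p.1 - p.2 : ℤ) : ℝ)| ^ (-α)

lemma cf_nonneg (α : ℝ) (p : ℤ × ℤ) : 0 ≤ cf α p := Real.rpow_nonneg (abs_nonneg _) _

/-- configurations supported in `Λ` -/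
def LL (Λ : Finset ℤ) : AddSubgroup (ℤ → ℤ) where
  carrier := {φ | ∀ x, x ∉ Λ → φ x = 0}
  add_mem' := by
    intro a b ha hb x hx
    simp only [Pi.add_apply]
    rw [ha x hx, hb x hx, add_zero]
  zero_mem' := fun x _ => rfl
  neg_mem' := by
    intro a ha x hx
    simp only [Pi.neg_apply]
    rw [ha x hx, neg_zero]

lemma mem_LL {Λ : Finset ℤ} {φ : ℤ → ℤ} : φ ∈ LL Λ ↔ ∀ x, x ∉ Λ → φ x = 0 := Iff.rfl

/-- the energy -/
def En (α : ℝ) (φ : ℤ → ℤ) : ℝ := ∑' p : ℤ × ℤ, cf α p * ((φ p.1 : ℝ) - φ p.2) ^ 2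

lemma summable_cf_row {α : ℝ} (hα : 1 < α) (x : ℤ) : Summable (fun y : ℤ => cf α (x, y)) := by
  have h := Real.summable_abs_int_rpow hα
  have h2 := (Equiv.subLeft x).summable_iff (f := fun n : ℤ => |(n : ℝ)| ^ (-α))
  exact (h2.mpr h).congr (fun y => rfl)

lemma summable_cf_sq {α : ℝ} (hα : 1 < α) {Λ : Finset ℤ} {φ : ℤ → ℤ} (hφ : φ ∈ LL Λ) :
    Summable (fun p : ℤ × ℤ => cf α p * (φ p.1 : ℝ) ^ 2) := by
  have h0 : 0 ≤ fun p : ℤ × ℤ => cf α p * (φ p.1 : ℝ) ^ 2 :=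
    fun p => mul_nonneg (cf_nonneg α p) (sq_nonneg _)
  have h1 : ∀ x : ℤ, Summable (fun y : ℤ => cf α (x, y) * (φ x : ℝ) ^ 2) :=
    fun x => (summable_cf_row hα x).mul_right _
  rw [summable_prod_of_nonneg h0]
  refine ⟨h1, ?_⟩
  refine summable_of_ne_finset_zero (s := Λ) (fun x hx => ?_)
  simp [hφ x hx]

lemma summable_En {α : ℝ} (hα : 1 < α) {Λ : Finset ℤ} {φ : ℤ → ℤ} (hφ : φ ∈ LL Λ) :
    Summable (fun p : ℤ × ℤ => cf α p * ((φ p.1 : ℝ) - φ p.2) ^ 2) := by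
  have h1 := summable_cf_sq hα hφ
  have h2 : Summable (fun p : ℤ × ℤ => cf α p * (φ p.2 : ℝ) ^ 2) := by
    have h3 := (Equiv.prodComm ℤ ℤ).summable_iff.mpr h1
    refine h3.congr (fun p => ?_)
    simp only [Function.comp, Equiv.prodComm_apply, Prod.fst_swap]
    congr 1
    unfold cf
    congr 1
    simp only [Prod.fst_swap, Prod.snd_swap]
    push_cast
    rw [abs_sub_comm]
  refine Summable.of_nonneg_of_le (fun p => mul_nonneg (cf_nonneg α p) (sq_nonneg _)) ?_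
    ((h1.add h2).mul_left 2)
  intro p
  have := cf_nonneg α p
  nlinarith [sq_nonneg ((φ p.1 : ℝ) + φ p.2), mul_nonneg this (sq_nonneg ((φ p.1 : ℝ) + φ p.2))]

lemma En_par {α : ℝ} (hα : 1 < α) {Λ : Finset ℤ} {φ ψ : ℤ → ℤ} (hφ : φ ∈ LL Λ) (hψ : ψ ∈ LL Λ) :
    En α (φ + ψ) + En α (φ - ψ) = 2 * En α φ + 2 * En α ψ := by
  unfold En
  rw [← tsum_mul_left, ← tsum_mul_left,
    ← (summable_En hα ((LL Λ).add_mem hφ hψ)).tsum_add (summable_En hα ((LL Λ).sub_mem hφ hψ)),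
    ← ((summable_En hα hφ).mul_left 2).tsum_add ((summable_En hα hψ).mul_left 2)]
  refine tsum_congr (fun p => ?_)
  simp only [Pi.add_apply, Pi.sub_apply]
  push_cast
  ring

lemma En_nonneg (α : ℝ) (φ : ℤ → ℤ) : 0 ≤ En α φ :=
  tsum_nonneg (fun p => mul_nonneg (cf_nonneg α p) (sq_nonneg _))

/-- the Euclidean square -/
def yy (Λ : Finset ℤ) (φ : ℤ → ℤ) : ℝ := ∑ x ∈ Λ, (φ x : ℝ) ^ 2

lemma yy_nonneg (Λ : Finset ℤ) (φ : ℤ → ℤ) : 0 ≤ yy Λ φ := Finset.sum_nonneg (fun _ _ => sq_nonneg _)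

lemma En_lower {α : ℝ} (hα : 1 < α) (Λ : Finset ℤ) :
    ∃ c : ℝ, 0 < c ∧ ∀ φ ∈ LL Λ, c * yy Λ φ ≤ En α φ := by
  obtain ⟨y0, hy0⟩ := Infinite.exists_notMem_finset Λ
  have hc : ∃ c : ℝ, 0 < c ∧ ∀ x ∈ Λ, c ≤ cf α (x, y0) := by
    rcases Λ.eq_empty_or_nonempty with h | h
    · exact ⟨1, one_pos, fun x hx => by simp [h] at hx⟩
    · obtain ⟨x0, hx0, hmin⟩ := Λ.exists_min_image (fun x => cf α (x, y0)) h
      refine ⟨cf α (x0, y0), ?_, hmin⟩
      unfold cf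
      apply Real.rpow_pos_of_pos
      rw [abs_pos]
      have : x0 ≠ y0 := fun h' => hy0 (h' ▸ hx0)
      exact_mod_cast sub_ne_zero.mpr this
  obtain ⟨c, hc0, hc⟩ := hc
  refine ⟨c, hc0, fun φ hφ => ?_⟩
  have h1 := (summable_En hα hφ).sum_le_tsum (Λ.map ⟨fun x => (x, y0), fun a b h => (Prod.mk.inj h).1⟩)
    (fun p _ => mul_nonneg (cf_nonneg α p) (sq_nonneg _))
  rw [Finset.sum_map] at h1
  refine le_trans ?_ h1
  unfold yy
  rw [Finset.mul_sum]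
  refine Finset.sum_le_sum (fun x hx => ?_)
  show c * (φ x : ℝ) ^ 2 ≤ cf α (x, y0) * ((φ x : ℝ) - φ y0) ^ 2
  rw [hφ y0 hy0, Int.cast_zero, sub_zero]
  exact mul_le_mul_of_nonneg_right (hc x hx) (sq_nonneg _)

/-! ### summability -/

lemma summable_gauss {c : ℝ} (hc : 0 < c) : Summable (fun k : ℤ => Real.exp (-c * (k : ℝ) ^ 2)) := by
  have h := (summable_jacobiTheta₂_term_iff 0 (Complex.I * (c / Real.pi : ℝ))).mpr (by
    simp; positivity)
  have h2 := h.norm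
  refine h2.congr (fun k => ?_)
  rw [norm_jacobiTheta₂_term]
  congr 1
  simp
  field_simp

lemma summable_prod_int (r : ℕ) (g : ℤ → ℝ) (hg : ∀ k, 0 ≤ g k) (hS : Summable g) :
    Summable (fun m : Fin r → ℤ => ∏ j, g (m j)) := by
  induction r with
  | zero =>
    simp only [Finset.univ_eq_empty, Finset.prod_empty]
    exact (hasSum_unique (fun _ : Fin 0 → ℤ => (1 : ℝ))).summable
  | succ n ih =>
    set G : (Fin n → ℤ) → ℝ := fun m => ∏ j : Fin n, g (m j) with hG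
    have hs : Summable (fun x : ℤ × (Fin n → ℤ) => g x.1 * G x.2) :=
      Summable.mul_of_nonneg hS ih (fun k => hg k)
        (fun m => Finset.prod_nonneg (fun j _ => hg (m j)))
    have h3 := (Fin.consEquiv (fun _ : Fin (n + 1) => ℤ)).summable_iff
      (f := fun m : Fin (n + 1) → ℤ => ∏ j, g (m j))
    rw [← h3]
    have h4 : ((fun m : Fin (n + 1) → ℤ => ∏ j, g (m j)) ∘
        (Fin.consEquiv (fun _ : Fin (n + 1) => ℤ))) = fun x => g x.1 * G x.2 := by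
      funext x
      simp only [Function.comp, Fin.consEquiv, Equiv.coe_fn_mk, hG]
      rw [Fin.prod_univ_succ]
      simp
    rw [h4]
    exact hs

lemma summable_yy (Λ : Finset ℤ) {c : ℝ} (hc : 0 < c) :
    Summable (fun φ : LL Λ => Real.exp (-c * yy Λ φ)) := by
  have h1 := summable_prod_int Λ.card (fun k => Real.exp (-c * (k : ℝ) ^ 2))
    (fun k => (Real.exp_pos _).le) (summable_gauss hc)
  -- restriction map
  let ρ : LL Λ → (Fin Λ.card → ℤ) := fun φ j => (φ : ℤ → ℤ) (Λ.equivFin.symm j)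
  have hρ : Function.Injective ρ := by
    intro φ ψ h
    apply Subtype.ext
    funext x
    by_cases hx : x ∈ Λ
    · have := congrFun h (Λ.equivFin ⟨x, hx⟩)
      simpa [ρ] using this
    · rw [φ.2 x hx, ψ.2 x hx]
  have h2 := h1.comp_injective hρ
  refine h2.congr (fun φ => ?_)
  simp only [Function.comp, ρ]
  rw [← Real.exp_sum]
  congr 1
  unfold yy
  rw [← Finset.mul_sum]
  congr 1
  rw [← Finset.sum_coe_sort Λ]
  exact Fintype.sum_equiv Λ.equivFin.symm _ _ (fun j => rfl)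

lemma lin_le_exp {b y : ℝ} (hb : 0 < b) : y ≤ (1 / b) * Real.exp (b * y) := by
  have := Real.add_one_le_exp (b * y)
  rw [div_mul_eq_mul_div, one_mul, le_div_iff₀ hb]
  linarith

lemma summable_yy_mul (Λ : Finset ℤ) {c : ℝ} (hc : 0 < c) :
    Summable (fun φ : LL Λ => yy Λ φ * Real.exp (-c * yy Λ φ)) := by
  refine Summable.of_nonneg_of_le (fun φ => mul_nonneg (yy_nonneg Λ φ) (Real.exp_pos _).le) ?_
    ((summable_yy Λ (half_pos hc)).mul_left (1 / (c / 2)))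
  intro φ
  have h1 := lin_le_exp (y := yy Λ φ) (half_pos hc)
  calc yy Λ φ * Real.exp (-c * yy Λ φ)
      ≤ ((1 / (c / 2)) * Real.exp (c / 2 * yy Λ φ)) * Real.exp (-c * yy Λ φ) := by gcongr
    _ = (1 / (c / 2)) * Real.exp (-(c / 2) * yy Λ φ) := by
        rw [mul_assoc, ← Real.exp_add]; congr 2; ring

/-- functionals bounded by the Euclidean norm -/
def Bd (Λ : Finset ℤ) (D : (ℤ → ℤ) →+ ℝ) : Prop := ∃ K : ℝ, 0 ≤ K ∧ ∀ φ ∈ LL Λ, (D φ) ^ 2 ≤ K * yy Λ φ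

variable {α β : ℝ}

lemma summable_w (hα : 1 < α) (hβ : 0 < β) (Λ : Finset ℤ) :
    Summable (fun φ : LL Λ => Real.exp (-(β * En α φ))) := by
  obtain ⟨c, hc, h⟩ := En_lower hα Λ
  refine Summable.of_nonneg_of_le (fun φ => (Real.exp_pos _).le) ?_
    (summable_yy Λ (mul_pos hβ hc))
  intro φ
  apply Real.exp_le_exp.mpr
  have := mul_le_mul_of_nonneg_left (h φ φ.2) hβ.le
  linarith

lemma summable_Dw (hα : 1 < α) (hβ : 0 < β) {Λ : Finset ℤ} {D : (ℤ → ℤ) →+ ℝ} (hD : Bd Λ D) :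
    Summable (fun φ : LL Λ => (D φ) ^ 2 * Real.exp (-(β * En α φ))) := by
  obtain ⟨c, hc, h⟩ := En_lower hα Λ
  obtain ⟨K, hK, hKD⟩ := hD
  refine Summable.of_nonneg_of_le (fun φ => mul_nonneg (sq_nonneg _) (Real.exp_pos _).le) ?_
    ((summable_yy_mul Λ (mul_pos hβ hc)).mul_left K)
  intro φ
  have h1 : Real.exp (-(β * En α φ)) ≤ Real.exp (-(β * c) * yy Λ φ) := by
    apply Real.exp_le_exp.mpr
    have := mul_le_mul_of_nonneg_left (h φ φ.2) hβ.le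
    linarith
  calc (D φ) ^ 2 * Real.exp (-(β * En α φ))
      ≤ (K * yy Λ φ) * Real.exp (-(β * c) * yy Λ φ) :=
        mul_le_mul (hKD φ φ.2) h1 (Real.exp_pos _).le (mul_nonneg hK (yy_nonneg _ _))
    _ = _ := by ring

lemma summable_Dw_half (hα : 1 < α) (hβ : 0 < β) {Λ : Finset ℤ} {D : (ℤ → ℤ) →+ ℝ} (hD : Bd Λ D) :
    Summable (fun φ : LL Λ => ‖D φ * Real.exp (-(β * En α φ) / 2)‖) := by
  have h1 := summable_w hα (half_pos hβ) Λ
  have h2 := summable_Dw hα (half_pos hβ) hD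
  refine Summable.of_nonneg_of_le (fun φ => norm_nonneg _) ?_ (h1.add h2)
  intro φ
  rw [norm_mul, Real.norm_eq_abs, Real.norm_of_nonneg (Real.exp_pos _).le]
  have e : Real.exp (-(β * En α φ) / 2) = Real.exp (-(β / 2 * En α φ)) := by
    congr 1; ring
  rw [e, ← one_add_mul]
  refine mul_le_mul_of_nonneg_right ?_ (Real.exp_pos _).le
  rw [← sq_abs (D φ)]
  nlinarith [sq_nonneg (|D (φ : ℤ → ℤ)| - 1)]

end

end Pool.Agent.H131R5.DG
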