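import Pool.Agent.H131R5.DG2

set_option autoImplicit false
set_option maxHeartbeats 1000000

/-!
Delocalisation of the long range discrete Gaussian chain for `α > 2`.
-/

namespace Pool.Agent.H131R5.DG

open Finset

noncomputable section

variable {α β : ℝ}

/-- partition function -/
def ZZ (α β : ℝ) (Λ : Finset ℤ) : ℝ := ∑' φ : LL Λ, Real.exp (-(β * En α φ))

/-- unnormalised second moment -/
def SS (α β : ℝ) (Λ : Finset ℤ) (D : (ℤ → ℤ) →+ ℝ) : ℝ :=
  ∑' φ : LL Λ, (D φ) ^ 2 * Real.exp (-(β * En α φ))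

/-- the quadratic function on the lattice -/
def Qf (α β : ℝ) (Λ : Finset ℤ) (φ : LL Λ) : ℝ := β * En α (φ : ℤ → ℤ)

/-- restriction of a functional -/
def Dr (Λ : Finset ℤ) (D : (ℤ → ℤ) →+ ℝ) : LL Λ →+ ℝ := D.comp (LL Λ).subtype

lemma Dr_apply (Λ : Finset ℤ) (D : (ℤ → ℤ) →+ ℝ) (φ : LL Λ) : Dr Λ D φ = D (φ : ℤ → ℤ) := rfl

lemma Qf_par (hα : 1 < α) (Λ : Finset ℤ) (a b : LL Λ) :
    Qf α β Λ (a + b) + Qf α β Λ (a - b) = 2 * Qf α β Λ a + 2 * Qf α β Λ b := by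
  have h1 := En_par hα a.2 b.2
  show β * En α ((a : ℤ → ℤ) + b) + β * En α ((a : ℤ → ℤ) - b) =
    2 * (β * En α (a : ℤ → ℤ)) + 2 * (β * En α (b : ℤ → ℤ))
  linear_combination β * h1

lemma summable_Dr (hα : 1 < α) (hβ : 0 < β) {Λ : Finset ℤ} {D : (ℤ → ℤ) →+ ℝ} (hD : Bd Λ D) :
    Summable (fun u : LL Λ => (Dr Λ D u) ^ 2 * Real.exp (-Qf α β Λ u)) :=
  (summable_Dw hα hβ hD).congr (fun _ => rfl)

lemma summable_Dr_half (hα : 1 < α) (hβ : 0 < β) {Λ : Finset ℤ} {D : (ℤ → ℤ) →+ ℝ}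
    (hD : Bd Λ D) : Summable (fun u : LL Λ => ‖Dr Λ D u * Real.exp (-Qf α β Λ u / 2)‖) :=
  (summable_Dw_half hα hβ hD).congr (fun _ => rfl)

lemma ZZ_pos (hα : 1 < α) (hβ : 0 < β) (Λ : Finset ℤ) : 0 < ZZ α β Λ :=
  (summable_w hα hβ Λ).tsum_pos (fun _ => (Real.exp_pos _).le) 0 (Real.exp_pos _)

lemma SS_nonneg (α β : ℝ) (Λ : Finset ℤ) (D : (ℤ → ℤ) →+ ℝ) : 0 ≤ SS α β Λ D :=
  tsum_nonneg (fun _ => mul_nonneg (sq_nonneg _) (Real.exp_pos _).le)

/-- evaluation -/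
def ev (x : ℤ) : (ℤ → ℤ) →+ ℝ := (Int.castAddHom ℝ).comp (Pi.evalAddMonoidHom (fun _ : ℤ => ℤ) x)

lemma ev_apply (x : ℤ) (φ : ℤ → ℤ) : ev x φ = φ x := rfl

lemma Bd_ev (Λ : Finset ℤ) (x : ℤ) : Bd Λ (ev x) := by
  refine ⟨1, zero_le_one, fun φ hφ => ?_⟩
  rw [ev_apply, one_mul]
  by_cases hx : x ∈ Λ
  · exact Finset.single_le_sum (f := fun x => (φ x : ℝ) ^ 2) (fun _ _ => sq_nonneg _) hx
  · rw [hφ x hx]
    simpa using yy_nonneg Λ φ

/-- block averages -/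
def Av : ℕ → ℤ → ((ℤ → ℤ) →+ ℝ)
  | 0, x => ev x
  | k + 1, x => (AddMonoidHom.mulLeft (1 / 2 : ℝ)).comp (Av k x + Av k (x + 2 ^ k))

/-- block differences -/
def Df (k : ℕ) (x : ℤ) : (ℤ → ℤ) →+ ℝ :=
  (AddMonoidHom.mulLeft (1 / 2 : ℝ)).comp (Av k x - Av k (x + 2 ^ k))

lemma Av_succ (k : ℕ) (x : ℤ) (φ : ℤ → ℤ) :
    Av (k + 1) x φ = 1 / 2 * (Av k x φ + Av k (x + 2 ^ k) φ) := rfl

lemma Df_apply (k : ℕ) (x : ℤ) (φ : ℤ → ℤ) :
    Df k x φ = 1 / 2 * (Av k x φ - Av k (x + 2 ^ k) φ) := rfl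

lemma Bd_comb {Λ : Finset ℤ} {D D1 D2 : (ℤ → ℤ) →+ ℝ} (h1 : Bd Λ D1) (h2 : Bd Λ D2)
    (h : ∀ φ, (D φ) ^ 2 ≤ (D1 φ) ^ 2 + (D2 φ) ^ 2) : Bd Λ D := by
  obtain ⟨K1, hK1, h1⟩ := h1
  obtain ⟨K2, hK2, h2⟩ := h2
  refine ⟨K1 + K2, by positivity, fun φ hφ => ?_⟩
  calc (D φ) ^ 2 ≤ (D1 φ) ^ 2 + (D2 φ) ^ 2 := h φ
    _ ≤ K1 * yy Λ φ + K2 * yy Λ φ := add_le_add (h1 φ hφ) (h2 φ hφ)
    _ = _ := by ring

lemma Bd_Av (Λ : Finset ℤ) (k : ℕ) : ∀ x, Bd Λ (Av k x) := by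
  induction k with
  | zero => exact fun x => Bd_ev Λ x
  | succ k ih =>
    intro x
    refine Bd_comb (ih x) (ih (x + 2 ^ k)) (fun φ => ?_)
    rw [Av_succ]
    nlinarith [sq_nonneg (Av k x φ - Av k (x + 2 ^ k) φ), sq_nonneg (Av k x φ),
      sq_nonneg (Av k (x + 2 ^ k) φ)]

lemma Bd_Df (Λ : Finset ℤ) (k : ℕ) (x : ℤ) : Bd Λ (Df k x) := by
  refine Bd_comb (Bd_Av Λ k x) (Bd_Av Λ k (x + 2 ^ k)) (fun φ => ?_)
  rw [Df_apply]
  nlinarith [sq_nonneg (Av k x φ + Av k (x + 2 ^ k) φ), sq_nonneg (Av k x φ),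
    sq_nonneg (Av k (x + 2 ^ k) φ)]

lemma Av_const {k : ℕ} : ∀ {x : ℤ} {φ : ℤ → ℤ} {c : ℤ},
    (∀ y, x ≤ y → y < x + 2 ^ k → φ y = c) → Av k x φ = c := by
  induction k with
  | zero =>
    intro x φ c h
    show ((φ x : ℤ) : ℝ) = c
    rw [h x le_rfl (by simp)]
  | succ k ih =>
    intro x φ c h
    rw [Av_succ]
    have hp : (0 : ℤ) < 2 ^ k := by positivity
    have hp2 : (2 : ℤ) ^ (k + 1) = 2 ^ k + 2 ^ k := by ring
    rw [ih (c := c) (fun y h1 h2 => h y h1 (by rw [hp2]; linarith)),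
      ih (c := c) (fun y h1 h2 => h y (by linarith) (by rw [hp2]; linarith))]
    ring

/-- the indicator of a block -/
def blk (x : ℤ) (n : ℤ) (y : ℤ) : ℤ := if x ≤ y ∧ y < x + n then 1 else 0

/-- the constant bounding the energy of a block -/
def Kα (α : ℝ) : ℝ := ∑' z : ℤ, 4 * |(z : ℝ)| ^ (-(α - 1))

lemma En_blk (hα : 2 < α) (x : ℤ) (n : ℤ) : En α (blk x n) ≤ Kα α := by
  -- membership in a finite support
  have hmem : blk x n ∈ LL (Finset.Ico x (x + n)) := by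
    intro y hy
    unfold blk
    rw [Finset.mem_Ico] at hy
    rw [if_neg hy]
  have hs := summable_En (by linarith : 1 < α) hmem
  -- reindex by the difference
  let e : ℤ × ℤ ≃ ℤ × ℤ :=
    { toFun := fun q => (q.1 + q.2, q.2)
      invFun := fun p => (p.1 - p.2, p.2)
      left_inv := fun q => by simp
      right_inv := fun p => by simp }
  have hs2 : Summable (fun q : ℤ × ℤ => |(q.1 : ℝ)| ^ (-α) *
      ((blk x n (q.1 + q.2) : ℝ) - blk x n q.2) ^ 2) := by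
    have := e.summable_iff.mpr hs
    refine this.congr (fun q => ?_)
    simp only [Function.comp, e, Equiv.coe_fn_mk, cf]
    congr 3
    push_cast
    ring
  have heq : En α (blk x n) = ∑' q : ℤ × ℤ, |(q.1 : ℝ)| ^ (-α) *
      ((blk x n (q.1 + q.2) : ℝ) - blk x n q.2) ^ 2 := by
    unfold En
    rw [← e.tsum_eq]
    refine tsum_congr (fun q => ?_)
    simp only [e, Equiv.coe_fn_mk, cf]
    congr 3
    push_cast
    ring
  rw [heq, hs2.tsum_prod]
  unfold Kα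
  have hsK : Summable (fun z : ℤ => 4 * |(z : ℝ)| ^ (-(α - 1))) :=
    (Real.summable_abs_int_rpow (by linarith : 1 < α - 1)).mul_left 4
  refine Summable.tsum_le_tsum ?_ hs2.prod hsK
  intro z
  simp only []
  rw [tsum_mul_left]
  -- the count
  have hcount : ∑' y : ℤ, ((blk x n (z + y) : ℝ) - blk x n y) ^ 2 ≤ 4 * |(z : ℝ)| := by
    set T : Finset ℤ := Finset.Ico (x - |z|) (x + |z|) ∪ Finset.Ico (x + n - |z|) (x + n + |z|) with hT
    have hzero : ∀ y, y ∉ T → ((blk x n (z + y) : ℝ) - blk x n y) ^ 2 = 0 := by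
      intro y hy
      have h1 : blk x n (z + y) = blk x n y := by
        rw [hT, Finset.mem_union, Finset.mem_Ico, Finset.mem_Ico] at hy
        push Not at hy
        have hz1 := neg_abs_le z
        have hz2 := le_abs_self z
        unfold blk
        congr 1
        apply propext
        constructor
        · rintro ⟨h3, h4⟩
          constructor
          · by_contra h5
            have := hy.1 (by linarith)
            linarith
          · by_contra h5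
            have := hy.2 (by linarith)
            linarith
        · rintro ⟨h3, h4⟩
          constructor
          · by_contra h5
            have := hy.1 (by linarith)
            linarith
          · by_contra h5
            have := hy.2 (by linarith)
            linarith
      rw [h1, sub_self]; norm_num
    rw [tsum_eq_sum hzero]
    have hle : ∀ y ∈ T, ((blk x n (z + y) : ℝ) - blk x n y) ^ 2 ≤ 1 := by
      intro y _
      have h01 : ∀ u, (blk x n u : ℝ) = 0 ∨ (blk x n u : ℝ) = 1 := by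
        intro u
        unfold blk
        split_ifs <;> simp
      rcases h01 (z + y) with h | h <;> rcases h01 y with h' | h' <;> rw [h, h'] <;> norm_num
    refine (Finset.sum_le_card_nsmul T _ 1 hle).trans ?_
    rw [nsmul_eq_mul, mul_one]
    have hcard : T.card ≤ 4 * z.natAbs := by
      refine (Finset.card_union_le _ _).trans ?_
      rw [Int.card_Ico, Int.card_Ico]
      have e1 : x + |z| - (x - |z|) = ((2 * z.natAbs : ℕ) : ℤ) := by
        push_cast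
        ring
      have e2 : x + n + |z| - (x + n - |z|) = ((2 * z.natAbs : ℕ) : ℤ) := by
        push_cast
        ring
      rw [e1, e2, Int.toNat_natCast]
      omega
    calc (T.card : ℝ) ≤ ((4 * z.natAbs : ℕ) : ℝ) := by exact_mod_cast hcard
      _ = 4 * |(z : ℝ)| := by
        push_cast
        rw [Nat.cast_natAbs]
        push_cast
        ring
  calc |(z : ℝ)| ^ (-α) * ∑' y : ℤ, ((blk x n (z + y) : ℝ) - blk x n y) ^ 2
      ≤ |(z : ℝ)| ^ (-α) * (4 * |(z : ℝ)|) :=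
        mul_le_mul_of_nonneg_left hcount (Real.rpow_nonneg (abs_nonneg _) _)
    _ = 4 * |(z : ℝ)| ^ (-(α - 1)) := by
        rcases eq_or_ne z 0 with h | h
        · subst h
          simp
          rw [Real.zero_rpow (by linarith)]
        · have hz : 0 < |(z : ℝ)| := by rw [abs_pos]; exact_mod_cast h
          have : -(α - 1) = -α + 1 := by ring
          rw [this, Real.rpow_add hz, Real.rpow_one]
          ring

/-- the increment -/
def dlt (α β : ℝ) : ℝ := Real.exp (-(β * Kα α)) / 16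

lemma dlt_pos (α β : ℝ) : 0 < dlt α β := by unfold dlt; positivity

/-- the second moment of a block difference is bounded below -/
lemma Df_lower (hα : 2 < α) (hβ : 0 < β) {Λ : Finset ℤ} {k : ℕ} {x : ℤ}
    (hΛ : Finset.Ico x (x + 2 ^ k) ⊆ Λ) : dlt α β * ZZ α β Λ ≤ SS α β Λ (Df k x) := by
  have hα1 : 1 < α := by linarith
  have hmem : blk x (2 ^ k) ∈ LL Λ := by
    intro y hy
    unfold blk
    rw [if_neg]
    intro h
    exact hy (hΛ (Finset.mem_Ico.mpr h))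
  have hsum0 : Summable (fun u : LL Λ => Real.exp (-Qf α β Λ u)) := summable_w hα1 hβ Λ
  have hsum1 := summable_Dr hα1 hβ (Bd_Df Λ k x)
  have h := shift_lower (Qf α β Λ) (Qf_par hα1 Λ) (Dr Λ (Df k x)) hsum0 hsum1
    ⟨blk x (2 ^ k), hmem⟩
  have eZ : ∑' u : LL Λ, Real.exp (-Qf α β Λ u) = ZZ α β Λ := rfl
  have eS : ∑' u : LL Λ, (Dr Λ (Df k x) u) ^ 2 * Real.exp (-Qf α β Λ u) = SS α β Λ (Df k x) := rfl
  have eD : Dr Λ (Df k x) ⟨blk x (2 ^ k), hmem⟩ = Df k x (blk x (2 ^ k)) := rfl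
  have eQ : Qf α β Λ ⟨blk x (2 ^ k), hmem⟩ = β * En α (blk x (2 ^ k)) := rfl
  rw [eZ, eS, eD, eQ] at h
  have hD : Df k x (blk x (2 ^ k)) = 1 / 2 := by
    rw [Df_apply, Av_const (c := 1), Av_const (c := 0)]
    · norm_num
    · intro y h1 h2
      unfold blk
      rw [if_neg]
      rintro ⟨_, h4⟩
      linarith
    · intro y h1 h2
      unfold blk
      rw [if_pos ⟨h1, h2⟩]
  rw [hD] at h
  have h2 : Real.exp (-(β * Kα α)) ≤ Real.exp (-(β * En α (blk x (2 ^ k)))) := by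
    apply Real.exp_le_exp.mpr
    have := mul_le_mul_of_nonneg_left (En_blk hα x (2 ^ k)) hβ.le
    linarith
  have hZ := ZZ_pos hα1 hβ Λ
  have h4 : (1 / 2 : ℝ) ^ 2 * Real.exp (-(β * Kα α)) * ZZ α β Λ ≤
      (1 / 2 : ℝ) ^ 2 * Real.exp (-(β * En α (blk x (2 ^ k)))) * ZZ α β Λ := by gcongr
  unfold dlt
  linarith

lemma SS_par (hα : 1 < α) (hβ : 0 < β) (Λ : Finset ℤ) (k : ℕ) (x : ℤ) :
    SS α β Λ (Av (k + 1) x) + SS α β Λ (Df k x) =
      1 / 2 * (SS α β Λ (Av k x) + SS α β Λ (Av k (x + 2 ^ k))) := by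
  unfold SS
  rw [← (summable_Dw hα hβ (Bd_Av Λ (k + 1) x)).tsum_add (summable_Dw hα hβ (Bd_Df Λ k x)),
    ← (summable_Dw hα hβ (Bd_Av Λ k x)).tsum_add (summable_Dw hα hβ (Bd_Av Λ k (x + 2 ^ k))),
    ← tsum_mul_left]
  refine tsum_congr (fun φ => ?_)
  rw [Av_succ, Df_apply]
  ring

/-- block averages lose a fixed amount of second moment at each scale -/
lemma Av_upper (hα : 2 < α) (hβ : 0 < β) {Λ : Finset ℤ} {M : ℝ} (k : ℕ) : ∀ x : ℤ,
    Finset.Ico x (x + 2 ^ k) ⊆ Λ →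
    (∀ y ∈ Finset.Ico x (x + 2 ^ k), SS α β Λ (ev y) ≤ M * ZZ α β Λ) →
    SS α β Λ (Av k x) ≤ (M - k * dlt α β) * ZZ α β Λ := by
  induction k with
  | zero =>
    intro x _ h
    have := h x (by simp)
    simpa [Av] using this
  | succ k ih =>
    intro x hΛ h
    have hp : (0 : ℤ) < 2 ^ k := by positivity
    have hp2 : (2 : ℤ) ^ (k + 1) = 2 ^ k + 2 ^ k := by ring
    have hs1 : Finset.Ico x (x + 2 ^ k) ⊆ Finset.Ico x (x + 2 ^ (k + 1)) := by
      apply Finset.Ico_subset_Ico le_rfl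
      rw [hp2]; linarith
    have hs2 : Finset.Ico (x + 2 ^ k) (x + 2 ^ k + 2 ^ k) ⊆ Finset.Ico x (x + 2 ^ (k + 1)) := by
      apply Finset.Ico_subset_Ico
      · linarith
      · rw [hp2]; linarith
    have h1 := ih x (hs1.trans hΛ) (fun y hy => h y (hs1 hy))
    have h2 := ih (x + 2 ^ k) (hs2.trans hΛ) (fun y hy => h y (hs2 hy))
    have h3 := SS_par (by linarith : 1 < α) hβ Λ k x
    have h4 := Df_lower hα hβ (hs1.trans hΛ)
    push_cast
    nlinarith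

/-- some site of a block has large second moment -/
lemma exists_large (hα : 2 < α) (hβ : 0 < β) {Λ : Finset ℤ} (k : ℕ) (x : ℤ)
    (hΛ : Finset.Ico x (x + 2 ^ k) ⊆ Λ) :
    ∃ y ∈ Finset.Ico x (x + 2 ^ k), k * dlt α β * ZZ α β Λ ≤ SS α β Λ (ev y) := by
  have hα1 : 1 < α := by linarith
  have hne : (Finset.Ico x (x + 2 ^ k)).Nonempty := by
    rw [Finset.nonempty_Ico]
    have : (0 : ℤ) < 2 ^ k := by positivity
    linarith
  obtain ⟨y, hy, hmax⟩ := (Finset.Ico x (x + 2 ^ k)).exists_max_image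
    (fun y => SS α β Λ (ev y)) hne
  refine ⟨y, hy, ?_⟩
  have hZ := ZZ_pos hα1 hβ Λ
  have h := Av_upper hα hβ (Λ := Λ) (M := SS α β Λ (ev y) / ZZ α β Λ) k x hΛ (by
    intro z hz
    rw [div_mul_cancel₀ _ hZ.ne']
    exact hmax z hz)
  have h0 := SS_nonneg α β Λ (Av k x)
  have h5 : 0 ≤ SS α β Λ (ev y) / ZZ α β Λ - k * dlt α β := by
    by_contra hneg
    push Not at hneg
    have := mul_neg_of_neg_of_pos hneg hZ
    linarith
  have h6 : k * dlt α β ≤ SS α β Λ (ev y) / ZZ α β Λ := by linarith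
  rwa [le_div_iff₀ hZ] at h6

/-- monotonicity in the domain -/
lemma SS_mono (hα : 1 < α) (hβ : 0 < β) {Λ Λ' : Finset ℤ} (h : Λ ⊆ Λ') (x : ℤ) :
    SS α β Λ (ev x) / ZZ α β Λ ≤ SS α β Λ' (ev x) / ZZ α β Λ' := by
  have hle : LL Λ ≤ LL Λ' := fun φ hφ y hy => hφ y (fun hy' => hy (h hy'))
  have htf : ∀ a : LL Λ', a + a = 0 → a = 0 := by
    intro a ha
    apply Subtype.ext
    funext y
    have h3 : (a : ℤ → ℤ) y + (a : ℤ → ℤ) y = 0 := by
      have := congrArg (fun u : LL Λ' => (u : ℤ → ℤ) y) ha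
      exact this
    show (a : ℤ → ℤ) y = 0
    omega
  have hsum0 : Summable (fun u : LL Λ' => Real.exp (-Qf α β Λ' u)) := summable_w hα hβ Λ'
  have hsum1 := summable_Dr hα hβ (Bd_ev Λ' x)
  have hsum2 := summable_Dr_half hα hβ (Bd_ev Λ' x)
  have h1 := mono_second ((LL Λ).addSubgroupOf (LL Λ')) (Qf α β Λ') (Qf_par hα Λ') htf
    (Dr Λ' (ev x)) hsum0 hsum1 hsum2
  have e1 : ∑' a : (LL Λ).addSubgroupOf (LL Λ'), Real.exp (-Qf α β Λ' a) = ZZ α β Λ := by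
    unfold ZZ
    rw [← (AddSubgroup.addSubgroupOfEquivOfLe hle).toEquiv.tsum_eq
      (fun φ : LL Λ => Real.exp (-(β * En α (φ : ℤ → ℤ))))]
    refine tsum_congr (fun a => ?_)
    rfl
  have e2 : ∑' a : (LL Λ).addSubgroupOf (LL Λ'), (Dr Λ' (ev x) a) ^ 2 *
      Real.exp (-Qf α β Λ' a) = SS α β Λ (ev x) := by
    unfold SS
    rw [← (AddSubgroup.addSubgroupOfEquivOfLe hle).toEquiv.tsum_eq
      (fun φ : LL Λ => (ev x (φ : ℤ → ℤ)) ^ 2 * Real.exp (-(β * En α (φ : ℤ → ℤ))))]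
    refine tsum_congr (fun a => ?_)
    rfl
  have e3 : ∑' b : LL Λ', Real.exp (-Qf α β Λ' b) = ZZ α β Λ' := rfl
  have e4 : ∑' b : LL Λ', (Dr Λ' (ev x) b) ^ 2 * Real.exp (-Qf α β Λ' b) = SS α β Λ' (ev x) := rfl
  rw [e1, e2, e3, e4] at h1
  rw [div_le_div_iff₀ (ZZ_pos hα hβ Λ) (ZZ_pos hα hβ Λ')]
  linarith

/-- translation -/
def tr (x : ℤ) (Λ : Finset ℤ) : LL Λ ≃ LL (Λ.map (Equiv.addRight x).toEmbedding) where
  toFun φ := ⟨fun y => (φ : ℤ → ℤ) (y - x), by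
    intro y hy
    apply φ.2
    intro h
    apply hy
    rw [Finset.mem_map]
    exact ⟨y - x, h, by simp⟩⟩
  invFun φ := ⟨fun y => (φ : ℤ → ℤ) (y + x), by
    intro y hy
    apply φ.2
    intro h
    rw [Finset.mem_map] at h
    obtain ⟨z, hz, hzy⟩ := h
    simp only [Equiv.coe_toEmbedding, Equiv.coe_addRight, add_left_inj] at hzy
    exact hy (hzy ▸ hz)⟩
  left_inv φ := by
    apply Subtype.ext
    funext y
    simp
  right_inv φ := by
    apply Subtype.ext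
    funext y
    simp

lemma En_tr (x : ℤ) (φ : ℤ → ℤ) : En α (fun y => φ (y - x)) = En α φ := by
  unfold En
  rw [← ((Equiv.addRight x).prodCongr (Equiv.addRight x)).tsum_eq]
  refine tsum_congr (fun p => ?_)
  simp [cf]

lemma SS_tr (x : ℤ) (Λ : Finset ℤ) :
    SS α β (Λ.map (Equiv.addRight x).toEmbedding) (ev x) = SS α β Λ (ev 0) := by
  unfold SS
  rw [← (tr x Λ).tsum_eq]
  refine tsum_congr (fun φ => ?_)
  have h1 : ev x ((tr x Λ φ : LL _) : ℤ → ℤ) = ev 0 (φ : ℤ → ℤ) := by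
    rw [ev_apply, ev_apply]
    simp [tr]
  have h2 : En α ((tr x Λ φ : LL _) : ℤ → ℤ) = En α (φ : ℤ → ℤ) := En_tr x φ
  rw [h1, h2]

lemma ZZ_tr (x : ℤ) (Λ : Finset ℤ) :
    ZZ α β (Λ.map (Equiv.addRight x).toEmbedding) = ZZ α β Λ := by
  unfold ZZ
  rw [← (tr x Λ).tsum_eq]
  refine tsum_congr (fun φ => ?_)
  have h2 : En α ((tr x Λ φ : LL _) : ℤ → ℤ) = En α (φ : ℤ → ℤ) := En_tr x φ
  rw [h2]

/-- the box -/
def bx (N : ℕ) : Finset ℤ := Finset.Icc (-(N : ℤ)) N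

/-- the variance at the origin -/
def VV (α β : ℝ) (N : ℕ) : ℝ := SS α β (bx N) (ev 0) / ZZ α β (bx N)

lemma VV_mono (hα : 1 < α) (hβ : 0 < β) : Monotone (VV α β) := by
  intro N M h
  refine SS_mono hα hβ ?_ 0
  unfold bx
  apply Finset.Icc_subset_Icc
  · omega
  · omega

/-- Logarithmic lower bound for the variance at the origin. -/
theorem VV_lower (hα : 2 < α) (hβ : 0 < β) (k : ℕ) :
    k * dlt α β ≤ VV α β (2 * 2 ^ k) := by
  have hα1 : 1 < α := by linarith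
  have hsub : Finset.Ico (0 : ℤ) (0 + 2 ^ k) ⊆ bx (2 ^ k) := by
    intro y hy
    rw [Finset.mem_Ico] at hy
    unfold bx
    rw [Finset.mem_Icc]
    push_cast
    constructor
    · have : (0 : ℤ) < 2 ^ k := by positivity
      linarith
    · linarith
  obtain ⟨y, hy, hbig⟩ := exists_large hα hβ k 0 hsub
  rw [Finset.mem_Ico] at hy
  have h1 : k * dlt α β ≤ SS α β (bx (2 ^ k)) (ev y) / ZZ α β (bx (2 ^ k)) := by
    rw [le_div_iff₀ (ZZ_pos hα1 hβ _)]
    exact hbig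
  refine h1.trans ?_
  have h2 : bx (2 ^ k) ⊆ (bx (2 * 2 ^ k)).map (Equiv.addRight y).toEmbedding := by
    intro z hz
    rw [Finset.mem_map]
    refine ⟨z - y, ?_, by simp⟩
    unfold bx at hz ⊢
    rw [Finset.mem_Icc] at hz ⊢
    push_cast at hz ⊢
    constructor <;> linarith [hy.1, hy.2, hz.1, hz.2]
  refine (SS_mono hα1 hβ h2 y).trans (le_of_eq ?_)
  rw [SS_tr, ZZ_tr]
  rfl

theorem VV_tendsto (hα : 2 < α) (hβ : 0 < β) :
    Filter.Tendsto (VV α β) Filter.atTop Filter.atTop := by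
  refine Filter.tendsto_atTop_atTop_of_monotone (VV_mono (by linarith) hβ) (fun b => ?_)
  obtain ⟨k, hk⟩ := exists_nat_ge (b / dlt α β)
  refine ⟨2 * 2 ^ k, ?_⟩
  refine le_trans ?_ (VV_lower hα hβ k)
  rwa [div_le_iff₀ (dlt_pos α β)] at hk

end

end Pool.Agent.H131R5.DG
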